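import Pool.Agent.H396R3.Num
import Pool.Agent.MWidth.L_k_num
import Pool.Agent.MWidth.L_k_num_low1

open MeasureTheory Real Filter
open scoped ENNReal BigOperators Topology

set_option autoImplicit false

namespace H396

open HypVol MWidth Sol_num_sums Sol_cover_W2

/-- approximation by a combination of points of nets -/
theorem err (p : ℝ) (hp1 : 1 < p) (hp2 : p < 2) (a b : ℝ) (hs : Summable (rr p a b)) (M : ℕ)
    (f : (Fin 2 → ℝ) → ℂ) (hf : f ∈ W1 a b) (eps : ℕ → ℝ) (he : ∀ n, 0 ≤ eps n)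
    (F : (n : ℕ) → Finset ((layer 2 n) × Fin 2 → ℝ))
    (hF : ∀ n, ∀ x ∈ B1 n, ∃ y ∈ F n, eLpNorm (poly (x - y)) (ENNReal.ofReal p) (TP 2)
      ≤ ENNReal.ofReal (eps n)) :
    ∃ y : (n : Fin M) → ((layer 2 n) × Fin 2 → ℝ), (∀ n : Fin M, y n ∈ F n) ∧
      eLpNorm (fun x => f x - ∑ n : Fin M, (lam 2 a b n : ℂ) * poly (y n) x) (ENNReal.ofReal p) (TP 2)
        ≤ ENNReal.ofReal (∑' n : ℕ, rr p a b (n + M))
          + ENNReal.ofReal (∑ n ∈ Finset.range M, lam 2 a b n * eps n) := by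
  have hP := TP_prob 2
  have hP1 : (1 : ℝ≥0∞) ≤ ENNReal.ofReal p := by
    rw [← ENNReal.ofReal_one]; exact ENNReal.ofReal_le_ofReal hp1.le
  choose x hxb hxl using lay_B1 hf
  have hy : ∀ n, ∃ y ∈ F n, eLpNorm (poly (x n - y)) (ENNReal.ofReal p) (TP 2)
      ≤ ENNReal.ofReal (eps n) := fun n => hF n (x n) (hxb n)
  choose y hyF hyE using hy
  refine ⟨fun n => y n, fun n => hyF n, ?_⟩
  have hmeasf : AEStronglyMeasurable f (TP 2) := hf.1.1
  have hmeas1 : AEStronglyMeasurable (fun z => f z - ∑ n ∈ Finset.range M, lay 2 n f z) (TP 2) := by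
    refine hmeasf.sub ?_
    have hc : Continuous (fun z => ∑ n ∈ Finset.range M, lay 2 n f z) :=
      continuous_finset_sum _ fun n _ => lay_cont n f
    exact hc.aestronglyMeasurable
  have hmeas2 : ∀ n : ℕ, AEStronglyMeasurable
      ((lam 2 a b n : ℂ) • (poly (x n - y n) : (Fin 2 → ℝ) → ℂ)) (TP 2) := fun n =>
    ((mw_poly_cont (x n - y n)).const_smul _).aestronglyMeasurable
  have hdec : (fun z => f z - ∑ n : Fin M, (lam 2 a b n : ℂ) * poly (y n) z)
      = (fun z => f z - ∑ n ∈ Finset.range M, lay 2 n f z)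
        + ∑ n ∈ Finset.range M, (lam 2 a b n : ℂ) • (poly (x n - y n) : (Fin 2 → ℝ) → ℂ) := by
    funext z
    simp only [Pi.add_apply, Finset.sum_apply, Pi.smul_apply, smul_eq_mul, mw_poly_sub]
    rw [Fin.sum_univ_eq_sum_range (fun n => (lam 2 a b n : ℂ) * poly (y n) z) M]
    have : ∀ n, lay 2 n f z = (lam 2 a b n : ℂ) * poly (x n) z := fun n => by rw [hxl n]
    simp only [this, mul_sub, Finset.sum_sub_distrib]
    ring
  rw [hdec]
  refine (eLpNorm_add_le hmeas1 (Finset.aestronglyMeasurable_sum _ fun n _ => hmeas2 n) hP1).trans ?_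
  refine add_le_add (tail p hp1 hp2 hs hf M) ?_
  refine (eLpNorm_sum_le (fun n _ => hmeas2 n) hP1).trans ?_
  rw [ENNReal.ofReal_sum_of_nonneg (fun n _ => mul_nonneg (lam_pos2 a b n).le (he n))]
  refine Finset.sum_le_sum fun n _ => ?_
  rw [eLpNorm_const_smul, ENNReal.ofReal_mul (lam_pos2 a b n).le]
  refine mul_le_mul' ?_ (hyE n)
  rw [← ofReal_norm, Complex.norm_real, Real.norm_eq_abs, abs_of_pos (lam_pos2 a b n)]

/-- the cover of the class at the scale `m` -/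
theorem cover (p : ℝ) (hp1 : 1 < p) (hp2 : p < 2) (a b : ℝ) (ha : 1 - 1/p < a) : ∃ C : ℝ, 0 < C ∧
    ∀ m : ℕ, 1 ≤ m → ∃ G : Finset ((Fin 2 → ℝ) → ℂ),
      (∀ g ∈ G, MemLp g (ENNReal.ofReal p) (TP 2)) ∧
      (G.card : ℝ) ≤ Real.exp (C * 2^m * (m:ℝ)^1) ∧
      ∀ f ∈ W1 a b, ∃ g ∈ G, eLpNorm (fun x => f x - g x) (ENNReal.ofReal p) (TP 2)
        ≤ ENNReal.ofReal (C * (2:ℝ)^(-(a * m)) * (m:ℝ)^b) := by
  have hp0 : 0 < p := by linarith
  obtain ⟨al, hal⟩ : ∃ al : ℝ, al = 1 - 1/p := ⟨_, rfl⟩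
  have hal0 : 0 < al := by
    rw [hal, sub_pos, div_lt_iff₀ hp0]; linarith
  have hala : al < a := by rw [hal]; exact ha
  have ha0 : 0 < a := hal0.trans hala
  have hs := rr_summable p hp1 a b ha
  obtain ⟨μ, hμd⟩ : ∃ μ : ℝ, μ = (a / al - 1) / 2 := ⟨_, rfl⟩
  have hμ : 0 < μ := by
    have : 1 < a / al := by rw [lt_div_iff₀ hal0]; linarith
    rw [hμd]; linarith
  have hlt : (1 + μ) * al < a := by
    have : (1 + μ) * al = (al + a) / 2 := by rw [hμd]; field_simp; ring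
    rw [this]; linarith
  obtain ⟨L, hL1, hL⟩ := num3 μ hμ
  obtain ⟨C4, hC4, H4⟩ := num4
  obtain ⟨C5, hC5, H5⟩ := num5 μ hμ
  obtain ⟨C1, hC1, hfine⟩ := fine p hp1 hp2 (a + 1) (by linarith)
  obtain ⟨C2, hC2, hent⟩ := entp p hp1 hp2
  have hC20 : 0 < C2 := by linarith
  obtain ⟨T1, hT1⟩ : ∃ T1 : ℝ, T1 = ∑' j, nsG |b| 1 j := ⟨_, rfl⟩
  obtain ⟨T2, hT2⟩ : ∃ T2 : ℝ, T2 = ∑' j, nsG (|b| + al) (a - (1 + μ) * al) j := ⟨_, rfl⟩
  have hT10 : 0 ≤ T1 := by rw [hT1]; exact tsum_nonneg (nsG_nonneg _ _)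
  have hT20 : 0 ≤ T2 := by rw [hT2]; exact tsum_nonneg (nsG_nonneg _ _)
  have hs1 := nsG_summable |b| 1 one_pos
  have hs2 := nsG_summable (|b| + al) (a - (1 + μ) * al) (by linarith)
  refine ⟨(C1 * C4 + C2 * C5) + (T2 + C1 * T1 + C2 * T2) + 1, by positivity, ?_⟩
  intro m hm
  have hm0 : (0:ℝ) < m := by exact_mod_cast hm
  obtain ⟨cN, hcN⟩ : ∃ cN : ℕ → ℝ, cN = fun n => if n ≤ m then C1 * D2 n * (((m - n : ℕ) : ℝ) + 1)
    else C2 * D2 n / tau μ m n := ⟨_, rfl⟩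
  obtain ⟨eps, heps⟩ : ∃ eps : ℕ → ℝ, eps = fun n => if n ≤ m then C1 * (2:ℝ)^(-((a+1) * ((m - n : ℕ) : ℝ)))
    else C2 * (tau μ m n) ^ al := ⟨_, rfl⟩
  have hτ1 : ∀ n, m < n → 1 ≤ tau μ m n := fun n hn => tau_one μ hμ m n hm hn.le
  have hex : ∀ n : ℕ, ∃ F : Finset ((layer 2 n) × Fin 2 → ℝ), (F.card : ℝ) ≤ Real.exp (cN n) ∧
      ∀ x ∈ B1 n, ∃ y ∈ F, eLpNorm (poly (x - y)) (ENNReal.ofReal p) (TP 2)
        ≤ ENNReal.ofReal (eps n) := by
    intro n
    by_cases hn : n ≤ m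
    · obtain ⟨F, _, h2, h3⟩ := hfine n (m - n)
      refine ⟨F, ?_, ?_⟩
      · simp only [hcN, if_pos hn]; exact h2
      · simp only [heps, if_pos hn]; exact h3
    · have hn' : m < n := not_le.1 hn
      obtain ⟨F, _, h2, h3⟩ := hent n (tau μ m n) (by have := hτ1 n hn'; linarith)
      refine ⟨F, ?_, ?_⟩
      · simp only [hcN, if_neg hn]; exact h2
      · simp only [heps, if_neg hn, hal]; exact h3
  choose F hFc hFe using hex
  have heps0 : ∀ n, 0 ≤ eps n := by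
    intro n
    simp only [heps]
    by_cases hn : n ≤ m
    · rw [if_pos hn]; positivity
    · rw [if_neg hn]
      have := hτ1 n (not_le.1 hn)
      have : 0 ≤ tau μ m n := by linarith
      positivity
  obtain ⟨G, hG1, hG2, hG3⟩ := mw_card 2 (L * m + 1) a b cN F hFc
  have hLm : m ≤ L * m := Nat.le_mul_of_pos_left m hL1
  have hsplit : ∀ h : ℕ → ℝ, ∑ n ∈ Finset.range (L * m + 1), h n
      = ∑ n ∈ Finset.range (m + 1), h n + ∑ n ∈ Finset.Ioc m (L * m), h n := by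
    intro h
    rw [← Finset.sum_union]
    · congr 1
      ext n
      simp only [Finset.mem_range, Finset.mem_union, Finset.mem_Ioc]
      omega
    · rw [Finset.disjoint_left]
      intro n h1 h2
      simp only [Finset.mem_range, Finset.mem_Ioc] at h1 h2
      omega
  have hQ : 0 ≤ (2:ℝ)^m * (m:ℝ) := by positivity
  have hB : 0 ≤ (2:ℝ)^(-(a * m)) * (m:ℝ)^b := by positivity
  refine ⟨G, ?_, ?_, ?_⟩
  · intro g hg
    obtain ⟨y, rfl⟩ := hG2 g hg
    refine memLp_finsetSum _ fun n _ => ?_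
    exact (mw_memLp p hp1.le (y n)).const_mul _
  · refine hG3.trans (Real.exp_le_exp.2 ?_)
    rw [hsplit, pow_one]
    have e1 : ∑ n ∈ Finset.range (m + 1), cN n ≤ C1 * (C4 * 2^m * (m:ℝ)) := by
      refine le_trans (le_of_eq ?_) (mul_le_mul_of_nonneg_left (H4 m hm) hC1.le)
      rw [Finset.mul_sum]
      refine Finset.sum_congr rfl fun n hn => ?_
      have hn' : n ≤ m := by simp only [Finset.mem_range] at hn; omega
      simp only [hcN, if_pos hn']
      ring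
    have e2 : ∑ n ∈ Finset.Ioc m (L * m), cN n ≤ C2 * (C5 * 2^m * (m:ℝ)) := by
      refine le_trans (le_of_eq ?_) (mul_le_mul_of_nonneg_left
        (H5 m (Finset.Ioc m (L * m)) hm (fun n hn => (Finset.mem_Ioc.1 hn).1)) hC20.le)
      rw [Finset.mul_sum]
      refine Finset.sum_congr rfl fun n hn => ?_
      have hn' : m < n := (Finset.mem_Ioc.1 hn).1
      simp only [hcN, if_neg (not_le.2 hn')]
      ring
    have e3 : C1 * (C4 * 2^m * (m:ℝ)) + C2 * (C5 * 2^m * (m:ℝ)) = (C1 * C4 + C2 * C5) * (2^m * (m:ℝ)) := by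
      ring
    have e4 : (C1 * C4 + C2 * C5) * (2^m * (m:ℝ)) ≤
        ((C1 * C4 + C2 * C5) + (T2 + C1 * T1 + C2 * T2) + 1) * (2^m * (m:ℝ)) := by
      apply mul_le_mul_of_nonneg_right _ hQ
      have : 0 ≤ T2 + C1 * T1 + C2 * T2 := by positivity
      linarith
    calc _ ≤ C1 * (C4 * 2^m * (m:ℝ)) + C2 * (C5 * 2^m * (m:ℝ)) := add_le_add e1 e2
      _ = (C1 * C4 + C2 * C5) * (2^m * (m:ℝ)) := e3
      _ ≤ _ := e4
      _ = _ := by ring
  · intro f hf
    obtain ⟨y, hyF, hyE⟩ := err p hp1 hp2 a b hs (L * m + 1) f hf eps heps0 F hFe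
    refine ⟨_, hG1 y hyF, hyE.trans ?_⟩
    have e0 : ∑' n : ℕ, rr p a b (n + (L * m + 1)) ≤ T2 * ((2:ℝ)^(-(a * m)) * (m:ℝ)^b) := by
      have hb : ∀ n : ℕ, rr p a b (n + (L * m + 1)) ≤
          ((2:ℝ)^(-(a * m)) * (m:ℝ)^b) * nsG (|b| + al) (a - (1 + μ) * al) (n + (L * m + 1 - m)) := by
        intro n
        have h1 := num2 a b al μ hal0 m (n + (L * m + 1)) hm (by omega)
        have h2 := hL m (n + (L * m + 1)) hm (by omega)
        have h3 : n + (L * m + 1) - m = n + (L * m + 1 - m) := by omega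
        rw [h3] at h1
        refine le_trans ?_ h1
        unfold rr
        rw [← hal]
        have := D2_pos (n + (L * m + 1))
        have h4 := lam_pos2 a b (n + (L * m + 1))
        gcongr
      have hs3 : Summable (fun n : ℕ => nsG (|b| + al) (a - (1 + μ) * al) (n + (L * m + 1 - m))) :=
        (summable_nat_add_iff _).2 hs2
      calc _ ≤ ∑' n : ℕ, ((2:ℝ)^(-(a * m)) * (m:ℝ)^b) * nsG (|b| + al) (a - (1 + μ) * al) (n + (L * m + 1 - m)) := by
            exact Summable.tsum_le_tsum hb ((summable_nat_add_iff _).2 hs) (hs3.mul_left _)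
        _ = ((2:ℝ)^(-(a * m)) * (m:ℝ)^b) * ∑' n : ℕ, nsG (|b| + al) (a - (1 + μ) * al) (n + (L * m + 1 - m)) :=
            tsum_mul_left
        _ ≤ ((2:ℝ)^(-(a * m)) * (m:ℝ)^b) * T2 := by
            refine mul_le_mul_of_nonneg_left ?_ hB
            rw [hT2]
            exact tsum_comp_le_tsum_of_inj hs2 (nsG_nonneg _ _) (add_left_injective _)
        _ = _ := by ring
    have e1 : ∑ n ∈ Finset.range (m + 1), lam 2 a b n * eps n
        ≤ C1 * T1 * ((2:ℝ)^(-(a * m)) * (m:ℝ)^b) := by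
      calc ∑ n ∈ Finset.range (m + 1), lam 2 a b n * eps n
          ≤ ∑ n ∈ Finset.range (m + 1), (C1 * ((2:ℝ)^(-(a * m)) * (m:ℝ)^b)) * nsG |b| 1 (m - n) := by
            refine Finset.sum_le_sum fun n hn => ?_
            have hn' : n ≤ m := by simp only [Finset.mem_range] at hn; omega
            simp only [heps, if_pos hn']
            have := mul_le_mul_of_nonneg_left (num1 a b m n hm hn') hC1.le
            calc lam 2 a b n * (C1 * (2:ℝ)^(-((a+1) * ((m - n : ℕ) : ℝ))))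
                = C1 * (lam 2 a b n * (2:ℝ)^(-((a+1) * ((m - n : ℕ) : ℝ)))) := by ring
              _ ≤ _ := this
              _ = _ := by ring
        _ = (C1 * ((2:ℝ)^(-(a * m)) * (m:ℝ)^b)) * ∑ n ∈ Finset.range (m + 1), nsG |b| 1 (m - n) := by
            rw [Finset.mul_sum]
        _ ≤ (C1 * ((2:ℝ)^(-(a * m)) * (m:ℝ)^b)) * T1 := by
            refine mul_le_mul_of_nonneg_left ?_ (by positivity)
            rw [hT1]
            refine ns_fin hs1 (nsG_nonneg _ _) _ (fun n => m - n) ?_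
            intro x hx y hy h
            simp only [Finset.coe_range, Set.mem_Iio] at hx hy
            simp only at h
            omega
        _ = _ := by ring
    have e2 : ∑ n ∈ Finset.Ioc m (L * m), lam 2 a b n * eps n
        ≤ C2 * T2 * ((2:ℝ)^(-(a * m)) * (m:ℝ)^b) := by
      calc ∑ n ∈ Finset.Ioc m (L * m), lam 2 a b n * eps n
          ≤ ∑ n ∈ Finset.Ioc m (L * m), (C2 * ((2:ℝ)^(-(a * m)) * (m:ℝ)^b)) *
              nsG (|b| + al) (a - (1 + μ) * al) (n - m) := by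
            refine Finset.sum_le_sum fun n hn => ?_
            have hn' : m < n := (Finset.mem_Ioc.1 hn).1
            simp only [heps, if_neg (not_le.2 hn')]
            have := mul_le_mul_of_nonneg_left (num2 a b al μ hal0 m n hm hn'.le) hC20.le
            calc lam 2 a b n * (C2 * (tau μ m n)^al) = C2 * (lam 2 a b n * (tau μ m n)^al) := by ring
              _ ≤ _ := this
              _ = _ := by ring
        _ = (C2 * ((2:ℝ)^(-(a * m)) * (m:ℝ)^b)) * ∑ n ∈ Finset.Ioc m (L * m),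
              nsG (|b| + al) (a - (1 + μ) * al) (n - m) := by
            rw [Finset.mul_sum]
        _ ≤ (C2 * ((2:ℝ)^(-(a * m)) * (m:ℝ)^b)) * T2 := by
            refine mul_le_mul_of_nonneg_left ?_ (by positivity)
            rw [hT2]
            refine ns_fin hs2 (nsG_nonneg _ _) _ (fun n => n - m) ?_
            intro x hx y hy h
            simp only [Finset.coe_Ioc, Set.mem_Ioc] at hx hy
            simp only at h
            omega
        _ = _ := by ring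
    have hs0 : 0 ≤ ∑' n : ℕ, rr p a b (n + (L * m + 1)) :=
      tsum_nonneg fun n => rr_nonneg p a b _
    have hs1' : 0 ≤ ∑ n ∈ Finset.range (L * m + 1), lam 2 a b n * eps n :=
      Finset.sum_nonneg fun n _ => mul_nonneg (lam_pos2 a b n).le (heps0 n)
    rw [← ENNReal.ofReal_add hs0 hs1']
    apply ENNReal.ofReal_le_ofReal
    rw [hsplit]
    have e4 : (T2 + C1 * T1 + C2 * T2) * ((2:ℝ)^(-(a * m)) * (m:ℝ)^b)
        ≤ ((C1 * C4 + C2 * C5) + (T2 + C1 * T1 + C2 * T2) + 1) * ((2:ℝ)^(-(a * m)) * (m:ℝ)^b) := by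
      apply mul_le_mul_of_nonneg_right _ hB
      have : 0 ≤ C1 * C4 + C2 * C5 := by positivity
      linarith
    calc _ ≤ T2 * ((2:ℝ)^(-(a * m)) * (m:ℝ)^b) + (C1 * T1 * ((2:ℝ)^(-(a * m)) * (m:ℝ)^b) +
          C2 * T2 * ((2:ℝ)^(-(a * m)) * (m:ℝ)^b)) := add_le_add e0 (add_le_add e1 e2)
      _ = (T2 + C1 * T1 + C2 * T2) * ((2:ℝ)^(-(a * m)) * (m:ℝ)^b) := by ring
      _ ≤ _ := e4
      _ = _ := by ring

end H396
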