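import Pool.Agent.H396R3.Gauss2
import Pool.Agent.MWidth.L_ent_l2
import Pool.Agent.MWidth.L_vol_net
import Pool.Agent.MWidth.L_poly_norm
import Pool.Agent.MWidth.L_layer_fine
import Pool.Agent.EntX.L_parseval

open MeasureTheory Real
open scoped ENNReal BigOperators

set_option autoImplicit false

namespace H396

open HypVol MWidth

/-- unit ball of `L_1` on the layer, `d = 2` -/
def B1 (n : ℕ) : Set ((layer 2 n) × Fin 2 → ℝ) := {a | eLpNorm (poly a) 1 (TP 2) ≤ 1}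

/-- the size of the layer -/
noncomputable def D2 (n : ℕ) : ℝ := 2^n * ((n:ℝ) + 1)

theorem D2_pos (n : ℕ) : 0 < D2 n := by unfold D2; positivity

theorem D2_one (n : ℕ) : 1 ≤ D2 n := by
  unfold D2
  have h1 : (1:ℝ) ≤ 2^n := one_le_pow₀ (by norm_num)
  have h2 : (0:ℝ) ≤ n := Nat.cast_nonneg n
  nlinarith

theorem B1_coord {n : ℕ} {a : (layer 2 n) × Fin 2 → ℝ} (ha : a ∈ B1 n) (i : (layer 2 n) × Fin 2) :
    |a i| ≤ 1 := by
  have h := (poly_norm (d := 2) (n := n) 1 le_rfl).2.2.2.2.1 a i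
  rw [ENNReal.ofReal_one] at h
  refine h.trans ?_
  have := ENNReal.toReal_mono ENNReal.one_ne_top ha
  simpa using this

theorem B1_zero (n : ℕ) : (0 : (layer 2 n) × Fin 2 → ℝ) ∈ B1 n := by
  unfold B1
  have : poly (0 : (layer 2 n) × Fin 2 → ℝ) = 0 := by
    funext x; simp [poly]
  simp [this]

theorem B1_radius {n : ℕ} {a : (layer 2 n) × Fin 2 → ℝ} (ha : a ∈ B1 n) :
    ∑ i, a i ^ 2 ≤ 2 * D2 n := by
  have h1 : ∀ i, a i ^ 2 ≤ 1 := by
    intro i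
    have := B1_coord ha i
    rw [← sq_abs]; exact pow_le_one₀ (abs_nonneg _) this
  calc ∑ i, a i ^ 2 ≤ ∑ i : (layer 2 n) × Fin 2, (1:ℝ) := Finset.sum_le_sum fun i _ => h1 i
    _ = 2 * (layer 2 n).card := by
      rw [Finset.sum_const, Finset.card_univ, Fintype.card_prod, Fintype.card_coe, Fintype.card_fin,
        nsmul_eq_mul]
      push_cast; ring
    _ ≤ 2 * D2 n := by
      have := layer_card_le n
      unfold D2; linarith

/-- entropy of the `L_1` ball of the layer in `L_2` -/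
theorem ent2 : ∃ C : ℝ, 0 < C ∧ ∀ (n : ℕ) (ε : ℝ), 0 < ε → ∃ F : Finset ((layer 2 n) × Fin 2 → ℝ),
    (∀ x ∈ F, x ∈ B1 n) ∧ (F.card : ℝ) ≤ Real.exp (C * D2 n / ε^2) ∧
    ∀ x ∈ B1 n, ∃ y ∈ F, ∑ i, (x i - y i)^2 ≤ ε^2 := by
  classical
  obtain ⟨C1, hC1⟩ : ∃ C1 : ℝ, C1 = 2400 * Real.exp (1/2) := ⟨_, rfl⟩
  have hC10 : 0 < C1 := by rw [hC1]; positivity
  refine ⟨2 * (1 + 43 * C1^2), by positivity, fun n ε hε => ?_⟩
  obtain ⟨R, hR⟩ : ∃ R : ℝ, R = Real.sqrt (2 * D2 n) := ⟨_, rfl⟩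
  have hD := D2_pos n
  have hR0 : 0 < R := by rw [hR]; positivity
  have hR2 : R^2 = 2 * D2 n := by rw [hR]; exact Real.sq_sqrt (by positivity)
  let K : Set ((layer 2 n) × Fin 2 → ℝ) := {a | R • a ∈ B1 n}
  have hK0 : (0 : (layer 2 n) × Fin 2 → ℝ) ∈ K := by
    show R • (0 : (layer 2 n) × Fin 2 → ℝ) ∈ B1 n
    rw [smul_zero]; exact B1_zero n
  have hK1 : ∀ a ∈ K, ∑ i, a i ^ 2 ≤ 1 := by
    intro a ha
    have h1 := B1_radius (show R • a ∈ B1 n from ha)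
    have h2 : ∑ i, (R • a) i ^ 2 = R^2 * ∑ i, a i ^ 2 := by
      rw [Finset.mul_sum]
      refine Finset.sum_congr rfl fun i _ => ?_
      simp only [Pi.smul_apply, smul_eq_mul]; ring
    rw [h2, hR2] at h1
    have h3 : 0 < 2 * D2 n := by positivity
    nlinarith
  have hL : 1 / 2 ≤ gam ((layer 2 n) × Fin 2) 1 {u | ∀ a ∈ K, |∑ i, a i * u i| ≤ C1} := by
    refine (key n).trans (measure_mono ?_)
    intro u hu a ha
    have h1 := hu (R • a) ha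
    have h2 : ∑ i, (R • a) i * u i = R * ∑ i, a i * u i := by
      rw [Finset.mul_sum]
      refine Finset.sum_congr rfl fun i _ => ?_
      simp only [Pi.smul_apply, smul_eq_mul]; ring
    rw [h2, abs_mul, abs_of_pos hR0, ← hC1] at h1
    have h3 : Real.sqrt (2^n * ((n:ℝ) + 1)) ≤ R := by
      rw [hR]; apply Real.sqrt_le_sqrt
      show D2 n ≤ 2 * D2 n
      linarith
    have h4 : R * |∑ i, a i * u i| ≤ R * C1 := by
      refine h1.trans ?_
      rw [mul_comm R C1]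
      exact mul_le_mul_of_nonneg_left h3 hC10.le
    exact le_of_mul_le_mul_left h4 hR0
  obtain ⟨F, hF1, hF2, hF3⟩ := ent_l2 1 one_pos K hK0 hK1 C1 hC10 hL (ε / R) (by positivity)
  refine ⟨F.image (fun x => R • x), ?_, ?_, ?_⟩
  · intro x hx
    obtain ⟨y, hy, rfl⟩ := Finset.mem_image.1 hx
    exact hF1 y hy
  · refine (Nat.cast_le.2 Finset.card_image_le).trans (hF2.trans (le_of_eq ?_))
    congr 1
    rw [div_pow, hR2]
    field_simp
  · intro x hx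
    have hxK : R⁻¹ • x ∈ K := by
      show R • (R⁻¹ • x) ∈ B1 n
      rw [smul_smul, mul_inv_cancel₀ hR0.ne', one_smul]; exact hx
    obtain ⟨y, hy, hxy⟩ := hF3 _ hxK
    refine ⟨R • y, Finset.mem_image_of_mem _ hy, ?_⟩
    have h1 : ∑ i, (x i - (R • y) i)^2 = R^2 * ∑ i, ((R⁻¹ • x) i - y i)^2 := by
      rw [Finset.mul_sum]
      refine Finset.sum_congr rfl fun i _ => ?_
      simp only [Pi.smul_apply, smul_eq_mul]
      rw [← mul_pow]
      congr 1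
      field_simp
    rw [h1]
    calc R^2 * ∑ i, ((R⁻¹ • x) i - y i)^2 ≤ R^2 * (ε / R)^2 :=
          mul_le_mul_of_nonneg_left hxy (sq_nonneg _)
      _ = ε^2 := by field_simp

/-- interpolation between `L_1` and `L_2` -/
theorem interp12 {n : ℕ} (p : ℝ) (hp1 : 1 < p) (hp2 : p < 2) (u : (layer 2 n) × Fin 2 → ℝ) (A B : ℝ)
    (hA : 0 < A) (hB : 0 < B)
    (h1 : eLpNorm (poly u) 1 (TP 2) ≤ ENNReal.ofReal A)
    (h2 : eLpNorm (poly u) 2 (TP 2) ≤ ENNReal.ofReal B) :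
    eLpNorm (poly u) (ENNReal.ofReal p) (TP 2) ≤ ENNReal.ofReal (A ^ (2/p - 1) * B ^ (2 - 2/p)) := by
  have hp0 : 0 < p := by linarith
  have hcont : Continuous (poly u : (Fin 2 → ℝ) → ℂ) := by
    unfold poly
    fun_prop
  have hF : AEMeasurable (fun x => ‖poly u x‖ₑ) (TP 2) := hcont.aestronglyMeasurable.enorm
  have e1 : eLpNorm (poly u) 1 (TP 2) = ∫⁻ x, ‖poly u x‖ₑ ∂(TP 2) := eLpNorm_one_eq_lintegral_enorm
  have e2 : eLpNorm (poly u) 2 (TP 2) = (∫⁻ x, ‖poly u x‖ₑ ^ (2:ℝ) ∂(TP 2)) ^ (1 / (2:ℝ)) := by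
    rw [eLpNorm_eq_lintegral_rpow_enorm_toReal two_ne_zero ENNReal.ofNat_ne_top]
    simp
  have ep : eLpNorm (poly u) (ENNReal.ofReal p) (TP 2) =
      (∫⁻ x, ‖poly u x‖ₑ ^ p ∂(TP 2)) ^ (1 / p) := by
    rw [eLpNorm_eq_lintegral_rpow_enorm_toReal (ENNReal.ofReal_pos.2 hp0).ne' ENNReal.ofReal_ne_top,
      ENNReal.toReal_ofReal hp0.le]
  have key := ENNReal.lintegral_mul_norm_pow_le (μ := TP 2)
    (f := fun x => ‖poly u x‖ₑ) (g := fun x => ‖poly u x‖ₑ ^ (2:ℝ))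
    hF (hF.pow_const 2) (p := 2 - p) (q := p - 1) (by linarith) (by linarith) (by ring)
  have hint : (∫⁻ x, ‖poly u x‖ₑ ^ p ∂(TP 2)) ≤
      (∫⁻ x, ‖poly u x‖ₑ ∂(TP 2)) ^ (2 - p) *
        (∫⁻ x, ‖poly u x‖ₑ ^ (2:ℝ) ∂(TP 2)) ^ (p - 1) := by
    refine le_trans (le_of_eq ?_) key
    refine lintegral_congr fun x => ?_
    rw [← ENNReal.rpow_mul, ← ENNReal.rpow_add_of_nonneg _ _ (by linarith) (by linarith)]
    congr 1
    ring
  rw [ep]
  have hq1 : 0 ≤ 2/p - 1 := by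
    rw [sub_nonneg, le_div_iff₀ hp0]; linarith
  have hq2 : 0 ≤ 2 - 2/p := by
    rw [sub_nonneg, div_le_iff₀ hp0]; linarith
  calc (∫⁻ x, ‖poly u x‖ₑ ^ p ∂(TP 2)) ^ (1 / p)
      ≤ ((∫⁻ x, ‖poly u x‖ₑ ∂(TP 2)) ^ (2 - p) *
        (∫⁻ x, ‖poly u x‖ₑ ^ (2:ℝ) ∂(TP 2)) ^ (p - 1)) ^ (1 / p) :=
        ENNReal.rpow_le_rpow hint (by positivity)
    _ = (∫⁻ x, ‖poly u x‖ₑ ∂(TP 2)) ^ (2/p - 1) *
        ((∫⁻ x, ‖poly u x‖ₑ ^ (2:ℝ) ∂(TP 2)) ^ (1 / (2:ℝ))) ^ (2 - 2/p) := by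
        rw [ENNReal.mul_rpow_of_nonneg _ _ (by positivity), ← ENNReal.rpow_mul, ← ENNReal.rpow_mul,
          ← ENNReal.rpow_mul]
        congr 2
        · field_simp
        · field_simp
    _ ≤ (ENNReal.ofReal A) ^ (2/p - 1) * (ENNReal.ofReal B) ^ (2 - 2/p) := by
        rw [← e2, ← e1]
        exact mul_le_mul' (ENNReal.rpow_le_rpow h1 hq1) (ENNReal.rpow_le_rpow h2 hq2)
    _ = ENNReal.ofReal (A ^ (2/p - 1) * B ^ (2 - 2/p)) := by
        rw [ENNReal.ofReal_rpow_of_pos hA, ENNReal.ofReal_rpow_of_pos hB,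
          ENNReal.ofReal_mul (by positivity)]

theorem poly_sub' {n : ℕ} (x y : (layer 2 n) × Fin 2 → ℝ) : poly (x - y) = poly x - poly y := by
  rw [poly_eq_ek, poly_eq_ek, poly_eq_ek, ← Finset.sum_sub_distrib]
  refine Finset.sum_congr rfl fun k _ => ?_
  rw [← sub_smul]
  congr 1
  simp only [Pi.sub_apply]; push_cast; ring

theorem poly_cont' {n : ℕ} (x : (layer 2 n) × Fin 2 → ℝ) : Continuous (poly x : (Fin 2 → ℝ) → ℂ) := by
  unfold poly; fun_prop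

theorem B1_sub {n : ℕ} {x y : (layer 2 n) × Fin 2 → ℝ} (hx : x ∈ B1 n) (hy : y ∈ B1 n) :
    eLpNorm (poly (x - y)) 1 (TP 2) ≤ ENNReal.ofReal 2 := by
  rw [poly_sub']
  refine (eLpNorm_sub_le (poly_cont' x).aestronglyMeasurable (poly_cont' y).aestronglyMeasurable le_rfl).trans ?_
  refine (add_le_add hx hy).trans (le_of_eq ?_)
  rw [show (2:ℝ) = 1 + 1 by norm_num, ENNReal.ofReal_add (by norm_num) (by norm_num), ENNReal.ofReal_one]

/-- entropy of the `L_1` ball of the layer in `L_p`, `1 < p < 2` -/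
theorem entp (p : ℝ) (hp1 : 1 < p) (hp2 : p < 2) : ∃ C : ℝ, 1 ≤ C ∧ ∀ (n : ℕ) (τ : ℝ), 0 < τ →
    ∃ F : Finset ((layer 2 n) × Fin 2 → ℝ),
    (∀ x ∈ F, x ∈ B1 n) ∧ (F.card : ℝ) ≤ Real.exp (C * D2 n / τ) ∧
    ∀ x ∈ B1 n, ∃ y ∈ F, eLpNorm (poly (x - y)) (ENNReal.ofReal p) (TP 2)
      ≤ ENNReal.ofReal (C * τ ^ (1 - 1/p)) := by
  obtain ⟨C, hC, h⟩ := ent2
  refine ⟨max C 2, (by norm_num : (1:ℝ) ≤ 2).trans (le_max_right _ _), fun n τ hτ => ?_⟩
  obtain ⟨F, hF1, hF2, hF3⟩ := h n (Real.sqrt τ) (by positivity)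
  refine ⟨F, hF1, hF2.trans ?_, ?_⟩
  · rw [Real.sq_sqrt hτ.le]
    apply Real.exp_le_exp.2
    have := D2_pos n
    gcongr
    exact le_max_left _ _
  · intro x hx
    obtain ⟨y, hy, hxy⟩ := hF3 x hx
    refine ⟨y, hy, ?_⟩
    have h2 : eLpNorm (poly (x - y)) 2 (TP 2) ≤ ENNReal.ofReal (Real.sqrt τ) := by
      rw [parseval]
      apply ENNReal.ofReal_le_ofReal
      unfold eu
      have : ∑ i, (x - y) i ^ 2 ≤ (Real.sqrt τ)^2 := by simpa using hxy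
      exact (Real.sqrt_le_sqrt this).trans (by rw [Real.sqrt_sq (Real.sqrt_nonneg _)])
    have h3 := interp12 p hp1 hp2 (x - y) 2 (Real.sqrt τ) (by norm_num) (by positivity) (B1_sub hx (hF1 y hy)) h2
    refine h3.trans (ENNReal.ofReal_le_ofReal ?_)
    have hp0 : 0 < p := by linarith
    have e1 : (Real.sqrt τ)^(2 - 2/p) = τ^(1 - 1/p) := by
      rw [Real.sqrt_eq_rpow, ← Real.rpow_mul hτ.le]
      congr 1; ring
    have e2 : (2:ℝ)^(2/p - 1) ≤ 2 := by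
      calc (2:ℝ)^(2/p - 1) ≤ 2^(1:ℝ) := by
            apply Real.rpow_le_rpow_of_exponent_le (by norm_num)
            have : 2/p ≤ 2 := by rw [div_le_iff₀ hp0]; linarith
            linarith
        _ = 2 := Real.rpow_one 2
    rw [e1]
    exact mul_le_mul_of_nonneg_right (e2.trans (le_max_right _ _)) (by positivity)

/-- radius of the `L_1` ball in `L_p` -/
theorem radp (p : ℝ) (hp1 : 1 < p) (hp2 : p < 2) (n : ℕ) (x : (layer 2 n) × Fin 2 → ℝ) (hx : x ∈ B1 n) :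
    eLpNorm (poly x) (ENNReal.ofReal p) (TP 2) ≤ ENNReal.ofReal ((2 * D2 n) ^ (1 - 1/p)) := by
  have hD := D2_pos n
  have h2 : eLpNorm (poly x) 2 (TP 2) ≤ ENNReal.ofReal (Real.sqrt (2 * D2 n)) := by
    rw [parseval]
    apply ENNReal.ofReal_le_ofReal
    unfold eu
    exact Real.sqrt_le_sqrt (B1_radius hx)
  have h3 := interp12 p hp1 hp2 x 1 (Real.sqrt (2 * D2 n)) (by norm_num) (by positivity)
    (by rw [ENNReal.ofReal_one]; exact hx) h2
  refine h3.trans (le_of_eq ?_)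
  rw [Real.one_rpow, one_mul, Real.sqrt_eq_rpow, ← Real.rpow_mul (by positivity)]
  congr 2; ring

/-- fine nets -/
theorem fine (p : ℝ) (hp1 : 1 < p) (hp2 : p < 2) (κ : ℝ) (hκ : 0 < κ) : ∃ C : ℝ, 0 < C ∧
    ∀ n j : ℕ, ∃ F : Finset ((layer 2 n) × Fin 2 → ℝ), (∀ x ∈ F, x ∈ B1 n) ∧
      (F.card : ℝ) ≤ Real.exp (C * D2 n * (j + 1)) ∧
      ∀ x ∈ B1 n, ∃ y ∈ F, eLpNorm (poly (x - y)) (ENNReal.ofReal p) (TP 2)
        ≤ ENNReal.ofReal (C * (2:ℝ)^(-(κ * j))) := by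
  classical
  obtain ⟨C1, hC1, H1⟩ := entp p hp1 hp2
  refine ⟨C1 + 2 * (2 + κ), by positivity, ?_⟩
  intro n j
  have hj : (0:ℝ) ≤ j := Nat.cast_nonneg j
  have hδ : (0:ℝ) < (2:ℝ)^(-(κ * j)) := by positivity
  have hδ1 : (2:ℝ)^(-(κ * j)) ≤ 1 := by
    apply Real.rpow_le_one_of_one_le_of_nonpos (by norm_num)
    have : 0 ≤ κ * j := by positivity
    linarith
  obtain ⟨h1, h2, h3, h4, h5, h6, h7, h8⟩ := poly_norm (d := 2) (n := n) p hp1.le
  obtain ⟨F1, hF11, hF12, hF13⟩ := H1 n 1 one_pos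
  have hρ : 0 < C1 := by linarith
  have hv := fun c : (layer 2 n) × Fin 2 → ℝ =>
    MWidth.vol_net (fun a : (layer 2 n) × Fin 2 → ℝ =>
      (eLpNorm (poly a) (ENNReal.ofReal p) (TP 2)).toReal) h2 h3 h4.measurable h7 h8
      {x | x ∈ B1 n ∧ (eLpNorm (poly (x - c)) (ENNReal.ofReal p) (TP 2)).toReal ≤ C1}
      c C1 ((2:ℝ)^(-(κ * j))) hρ hδ hδ1 (fun x hx => hx.2)
  choose G hG1 hG2 hG3 using hv
  refine ⟨F1.biUnion G, ?_, ?_, ?_⟩
  · intro x hx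
    rw [Finset.mem_biUnion] at hx
    obtain ⟨c, hc, hx⟩ := hx
    exact (hG1 c x hx).1
  · have e1 : Fintype.card ((layer 2 n) × Fin 2) = (layer 2 n).card * 2 := by
      simp [Fintype.card_prod]
    have e2 : ((F1.biUnion G).card : ℝ) ≤ F1.card * (3 / (2:ℝ)^(-(κ * j))) ^ ((layer 2 n).card * 2) := by
      calc ((F1.biUnion G).card : ℝ) ≤ ((∑ c ∈ F1, (G c).card : ℕ) : ℝ) := by
            exact_mod_cast Finset.card_biUnion_le
        _ = ∑ c ∈ F1, ((G c).card : ℝ) := by push_cast; rfl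
        _ ≤ ∑ c ∈ F1, (3 / (2:ℝ)^(-(κ * j))) ^ ((layer 2 n).card * 2) := by
            apply Finset.sum_le_sum
            intro c hc
            rw [← e1]
            exact hG2 c
        _ = _ := by rw [Finset.sum_const, nsmul_eq_mul]
    have e3 := Sol_layer_fine.log3d κ hκ j (layer 2 n).card
    calc ((F1.biUnion G).card : ℝ) ≤ F1.card * (3 / (2:ℝ)^(-(κ * j))) ^ ((layer 2 n).card * 2) := e2
      _ ≤ Real.exp (C1 * D2 n / 1) * Real.exp (2 * (layer 2 n).card * (2 + κ) * (j + 1)) :=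
          mul_le_mul hF12 e3 (by positivity) (by positivity)
      _ = Real.exp (C1 * D2 n / 1 + 2 * (layer 2 n).card * (2 + κ) * (j + 1)) := by rw [← Real.exp_add]
      _ ≤ _ := by
          apply Real.exp_le_exp.2
          have h9 := layer_card_le n
          have h10 : ((layer 2 n).card : ℝ) ≤ D2 n := h9
          have hD := D2_pos n
          have h11 : 2 * ((layer 2 n).card : ℝ) * (2 + κ) * (j + 1) ≤ 2 * D2 n * (2 + κ) * (j + 1) := by
            gcongr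
          have h12 : 0 ≤ C1 * D2 n * j := by positivity
          rw [div_one]
          nlinarith
  · intro x hx
    obtain ⟨c, hc, hxc⟩ := hF13 x hx
    rw [Real.one_rpow, mul_one] at hxc
    obtain ⟨y, hy, hxy⟩ := hG3 c x ⟨hx, ENNReal.toReal_le_of_le_ofReal hρ.le hxc⟩
    refine ⟨y, Finset.mem_biUnion.2 ⟨c, hc, hy⟩, ?_⟩
    rw [ENNReal.le_ofReal_iff_toReal_le (h1 _) (by positivity)]
    refine hxy.trans ?_
    rw [mul_comm]
    have : 0 ≤ 2 * (2 + κ) := by positivity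
    exact mul_le_mul_of_nonneg_right (by linarith) hδ.le

end H396
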