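import Pool.Agent.H396R3.Cover

open MeasureTheory Real Filter
open scoped ENNReal BigOperators Topology

set_option autoImplicit false

namespace H396

open HypVol MWidth Sol_num_sums Sol_cover_W2 Sol_lower_cover1

theorem upper (p : ℝ) (hp1 : 1 < p) (hp2 : p < 2) (a b : ℝ) (ha : 1 - 1/p < a) : ∃ C : ℝ, 0 < C ∧
    ∀ k : ℕ, 2 ≤ k → entP 2 p k (W1 a b)
      ≤ ENNReal.ofReal (C * (k:ℝ)^(-a) * (Real.log k)^(a + b)) := by
  classical
  haveI := TP_prob 2
  have hp0 : 0 < p := by linarith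
  have hal0 : 0 < 1 - 1/p := by
    rw [sub_pos, div_lt_iff₀ hp0]; linarith
  have ha0 : 0 < a := by linarith
  have hs := rr_summable p hp1 a b ha
  obtain ⟨C0, hC0, hcov⟩ := cover p hp1 hp2 a b ha
  obtain ⟨C1, hC1, hk⟩ := k_num 1 a (b + 1/2) C0 ha0 hC0
  obtain ⟨T, hT⟩ : ∃ T : ℝ, T = ∑' n : ℕ, rr p a b (n + 0) := ⟨_, rfl⟩
  have hT0 : 0 ≤ T := by rw [hT]; exact tsum_nonneg (fun n => rr_nonneg p a b _)
  have hE : ((1 : ℕ) : ℝ) * a + (b + 1/2) - 1/2 = a + b := by push_cast; ring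
  have hE2 : b + 1/2 - 1/2 = b := by ring
  rw [hE, hE2] at hk
  refine ⟨C1 * (1 + (T + 1)), by positivity, ?_⟩
  intro k hk2
  obtain ⟨R, hR⟩ : ∃ R : ℝ, R = (k:ℝ)^(-a) * (Real.log k)^(a + b) := ⟨_, rfl⟩
  have hR0 : 0 ≤ R := by
    have h1 : 0 ≤ Real.log k := Real.log_natCast_nonneg k
    rw [hR]; positivity
  have hgoal : C1 * (1 + (T + 1)) * (k:ℝ)^(-a) * (Real.log k)^(a + b)
      = C1 * R + (T + 1) * (C1 * R) := by rw [hR]; ring
  rw [hgoal]
  rcases hk k hk2 with ⟨m, hm, hexp, hle⟩ | ⟨-, hone⟩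
  · obtain ⟨G, hGm, hGc, hGf⟩ := hcov m hm
    have hcard : G.card ≤ 2^k := by
      have : (G.card : ℝ) ≤ ((2^k : ℕ) : ℝ) := by push_cast; exact hGc.trans hexp
      exact_mod_cast this
    let c : Fin (2^k) → ((Fin 2 → ℝ) → ℂ) := fun j =>
      if h : (j : ℕ) < G.card then (G.equivFin.symm ⟨j, h⟩ : (Fin 2 → ℝ) → ℂ) else 0
    have hcmem : ∀ j, MemLp (c j) (ENNReal.ofReal p) (TP 2) := by
      intro j
      by_cases h : (j : ℕ) < G.card
      · simp only [c, dif_pos h]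
        exact hGm _ (G.equivFin.symm ⟨j, h⟩).2
      · simp only [c, dif_neg h]
        exact MemLp.zero
    have hcov' : ∀ f ∈ W1 a b, ∃ j, eLpNorm (fun x => f x - c j x) (ENNReal.ofReal p) (TP 2)
        ≤ ENNReal.ofReal (C0 * (2:ℝ)^(-(a * m)) * (m:ℝ)^b) := by
      intro f hf
      obtain ⟨g, hg, hgl⟩ := hGf f hf
      let i := G.equivFin ⟨g, hg⟩
      have hi : (i : ℕ) < G.card := i.2
      refine ⟨⟨i, lt_of_lt_of_le hi hcard⟩, ?_⟩
      have hc : c ⟨i, lt_of_lt_of_le hi hcard⟩ = g := by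
        simp only [c]
        rw [dif_pos hi]
        simp [i]
      rw [hc]
      exact hgl
    have hpos : (0:ℝ≥0∞) < ENNReal.ofReal (C0 * (2:ℝ)^(-(a * m)) * (m:ℝ)^b) := by
      rw [ENNReal.ofReal_pos]
      have hm0 : (0:ℝ) < m := by exact_mod_cast hm
      positivity
    have h1 : entP 2 p k (W1 a b) ≤
        ENNReal.ofReal (C0 * (2:ℝ)^(-(a * m)) * (m:ℝ)^b) := by
      unfold entP
      exact iInf₂_le _ ⟨hpos, c, hcmem, hcov'⟩
    refine h1.trans (ENNReal.ofReal_le_ofReal ?_)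
    have h2 : C1 * (k:ℝ)^(-a) * (Real.log k)^(a + b) = C1 * R := by
      rw [hR]; ring
    rw [h2] at hle
    have h3 : 0 ≤ (T + 1) * (C1 * R) := by positivity
    linarith
  · have h2 : C1 * (k:ℝ)^(-a) * (Real.log k)^(a + b) = C1 * R := by
      rw [hR]; ring
    rw [h2] at hone
    have hpos : (0:ℝ≥0∞) < ENNReal.ofReal (T + 1) := by
      rw [ENNReal.ofReal_pos]; linarith
    have hcov' : ∀ f ∈ W1 a b, ∃ j : Fin (2^k), eLpNorm (fun x => f x - (fun (_ : Fin (2^k)) => (0 : (Fin 2 → ℝ) → ℂ)) j x)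
        (ENNReal.ofReal p) (TP 2) ≤ ENNReal.ofReal (T + 1) := by
      intro f hf
      refine ⟨⟨0, by positivity⟩, ?_⟩
      have e1 : (fun x => f x - (0 : (Fin 2 → ℝ) → ℂ) x) = f := by
        funext x; simp
      show eLpNorm (fun x => f x - (0 : (Fin 2 → ℝ) → ℂ) x) (ENNReal.ofReal p) (TP 2) ≤ _
      rw [e1]
      have h3 := tail p hp1 hp2 hs hf 0
      have e2 : (fun x => f x - ∑ n ∈ Finset.range 0, lay 2 n f x) = f := by
        funext x; simp
      rw [e2, ← hT] at h3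
      exact h3.trans (ENNReal.ofReal_le_ofReal (by linarith))
    have h1 : entP 2 p k (W1 a b) ≤ ENNReal.ofReal (T + 1) := by
      unfold entP
      exact iInf₂_le _ ⟨hpos, fun _ => 0, fun _ => MemLp.zero, hcov'⟩
    refine h1.trans (ENNReal.ofReal_le_ofReal ?_)
    have h5 : (T + 1) * 1 ≤ (T + 1) * (C1 * R) := by
      apply mul_le_mul_of_nonneg_left hone; linarith
    have h6 : 0 ≤ C1 * R := by positivity
    linarith

/-- scaled polynomials of the layer belong to the class -/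
theorem mem_W1 {n : ℕ} (a b : ℝ) (x : (layer 2 n) × Fin 2 → ℝ) (hx : x ∈ B1 n) :
    (fun y => ((lam 2 a b n : ℝ) : ℂ) * poly x y) ∈ W1 a b := by
  haveI := TP_prob 2
  have hl := lam_pos2 a b n
  have h1 : eLpNorm (fun y => ((lam 2 a b n : ℝ) : ℂ) * poly x y) 1 (TP 2) ≤
      ENNReal.ofReal (lam 2 a b n) := by
    have h2 : (fun y => ((lam 2 a b n : ℝ) : ℂ) * poly x y) = ((lam 2 a b n : ℝ) : ℂ) • poly x := rfl
    rw [h2, eLpNorm_const_smul, ← ofReal_norm, Complex.norm_real, Real.norm_of_nonneg hl.le]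
    calc ENNReal.ofReal (lam 2 a b n) * eLpNorm (poly x) 1 (TP 2)
        ≤ ENNReal.ofReal (lam 2 a b n) * 1 := by gcongr; exact hx
      _ = _ := mul_one _
  refine ⟨⟨(continuous_const.mul (mw_poly_cont x)).aestronglyMeasurable,
    lt_of_le_of_lt h1 ENNReal.ofReal_lt_top⟩, ?_⟩
  intro m
  by_cases hmn : m = n
  · subst hmn
    rw [lay_same_753]
    exact h1
  · rw [lay_other_753 hmn]
    simp

theorem lower (p : ℝ) (hp1 : 1 < p) (a b : ℝ) (ha : 0 < a) : ∃ c : ℝ, 0 < c ∧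
    ∀ k : ℕ, 2 ≤ k → ENNReal.ofReal (c * (k:ℝ)^(-a) * (Real.log k)^(a + b))
      ≤ entP 2 p k (W1 a b) := by
  haveI := TP_prob 2
  obtain ⟨c, hc, h2⟩ := k_num_low1 2 (by norm_num) a (b + 1/2) (1/4) ha (by norm_num)
  have hE : (((2:ℕ):ℝ) - 1) * a + (b + 1/2) - 1/2 = a + b := by push_cast; ring
  have hE2 : b + 1/2 - 1/2 = b := by ring
  rw [hE, hE2] at h2
  refine ⟨c, hc, fun k hk => ?_⟩
  unfold entP
  refine le_iInf₂ (fun ε hε => ?_)
  by_cases htop : ε = ⊤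
  · rw [htop]; exact le_top
  obtain ⟨n, hn, hkn, hle⟩ := h2 k hk
  obtain ⟨hε0, cc, hcc, hcov⟩ := hε
  have hpos : 0 < ε.toReal := ENNReal.toReal_pos hε0.ne' htop
  apply ENNReal.ofReal_le_of_le_toReal
  refine hle.trans ?_
  obtain ⟨L, hL⟩ : ∃ L : ℝ, L = lam 2 a b n := ⟨_, rfl⟩
  have hL0 : 0 < L := by rw [hL]; exact lam_pos2 a b n
  have hn1 : (1:ℝ) ≤ n := by exact_mod_cast hn
  have hLe : 1/4 * (2:ℝ)^(-(a * n)) * (n:ℝ)^b = 1/4 * L := by
    rw [hL, lam2, max_eq_left hn1]; ring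
  rw [hLe]
  -- volumes
  obtain ⟨_, _, hsm, _, _, _, hv0, hvt⟩ := poly_norm (d := 2) (n := n) 1 le_rfl
  obtain ⟨ν, hν⟩ : ∃ ν : ((layer 2 n) × Fin 2 → ℝ) → ℝ,
    ν = fun a => (eLpNorm (poly a) (ENNReal.ofReal 1) (TP 2)).toReal := ⟨_, rfl⟩
  obtain ⟨N, hN⟩ : ∃ N : ℕ, N = Fintype.card ((layer 2 n) × Fin 2) := ⟨_, rfl⟩
  have hN' : N = 2 * (layer 2 n).card := by
    rw [hN, Fintype.card_prod, Fintype.card_coe, Fintype.card_fin, mul_comm]
  have hkN : k ≤ N := by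
    rw [hN']; exact_mod_cast hkn
  have hfin : ∀ w : (layer 2 n) × Fin 2 → ℝ, eLpNorm (poly w) 1 (TP 2) ≠ ⊤ := by
    intro w
    have := (poly_norm (d := 2) (n := n) 1 le_rfl).1 w
    rwa [ENNReal.ofReal_one] at this
  have hVB : {w : (layer 2 n) × Fin 2 → ℝ | ν w ≤ 1} = B1 n := by
    ext w
    simp only [Set.mem_setOf_eq, hν, B1]
    rw [ENNReal.ofReal_one]
    constructor
    · intro h
      rw [← ENNReal.toReal_one] at h
      exact (ENNReal.toReal_le_toReal (hfin w) ENNReal.one_ne_top).1 h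
    · intro h
      rw [← ENNReal.toReal_one]
      exact (ENNReal.toReal_le_toReal (hfin w) ENNReal.one_ne_top).2 h
  have hsm' : ∀ (t : ℝ) (x : (layer 2 n) × Fin 2 → ℝ), ν (t • x) = |t| * ν x := by
    rw [hν]; exact hsm
  have hv0' : volume {w | ν w ≤ 1} ≠ 0 := by rw [hν]; exact hv0
  have hvt' : volume {w | ν w ≤ 1} ≠ ⊤ := by rw [hν]; exact hvt
  obtain ⟨r, hr⟩ : ∃ r : ℝ, r = 2 * ε.toReal / L := ⟨_, rfl⟩
  have hr0 : 0 < r := by rw [hr]; positivity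
  have hcov2 : ∀ f ∈ W1 a b, ∃ j, eLpNorm (fun x => f x - cc j x) (ENNReal.ofReal p) (TP 2) ≤
      ENNReal.ofReal ε.toReal := by
    rw [ENNReal.ofReal_toReal htop]; exact hcov
  have hsub : {w : (layer 2 n) × Fin 2 → ℝ | ν w ≤ 1} ⊆ ⋃ j : Fin (2 ^ k), {x | x ∈ B1 n ∧
      eLpNorm (fun t => ((L : ℝ) : ℂ) * poly x t - cc j t) (ENNReal.ofReal p) (TP 2) ≤
        ENNReal.ofReal ε.toReal} := by
    intro x hx
    rw [hVB] at hx
    obtain ⟨j, hj⟩ := hcov2 _ (mem_W1 a b x hx)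
    rw [← hL] at hj
    exact Set.mem_iUnion.2 ⟨j, hx, hj⟩
  have hpiece : ∀ j : Fin (2 ^ k), volume {x | x ∈ B1 n ∧
      eLpNorm (fun t => ((L : ℝ) : ℂ) * poly x t - cc j t) (ENNReal.ofReal p) (TP 2) ≤
        ENNReal.ofReal ε.toReal} ≤ ENNReal.ofReal (r ^ N) * volume {w | ν w ≤ 1} := by
    intro j
    rcases Set.eq_empty_or_nonempty {x | x ∈ B1 n ∧
      eLpNorm (fun t => ((L : ℝ) : ℂ) * poly x t - cc j t) (ENNReal.ofReal p) (TP 2) ≤
        ENNReal.ofReal ε.toReal} with h | ⟨y, hy⟩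
    · rw [h, measure_empty]; exact zero_le
    · rw [hN, ← Sol_vol_net.vn_ball_vol ν hsm' y r hr0]
      refine measure_mono ?_
      intro x hx
      have e1 := diff_753 p hp1.le L ε.toReal hL0 hpos (cc j) (hcc j) x y hx.2 hy.2
      show ν (x - y) ≤ r
      simp only [hν]
      rw [ENNReal.ofReal_one, hr]
      exact ENNReal.toReal_le_of_le_ofReal (by positivity) e1
  have htot : volume {w | ν w ≤ 1} ≤ ENNReal.ofReal (2^k * r^N) * volume {w | ν w ≤ 1} := by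
    calc volume {w | ν w ≤ 1} ≤ _ := measure_mono hsub
      _ ≤ ∑ j : Fin (2 ^ k), volume {x | x ∈ B1 n ∧
          eLpNorm (fun t => ((L : ℝ) : ℂ) * poly x t - cc j t) (ENNReal.ofReal p) (TP 2) ≤
          ENNReal.ofReal ε.toReal} := measure_iUnion_fintype_le _ _
      _ ≤ ∑ j : Fin (2 ^ k), ENNReal.ofReal (r ^ N) * volume {w | ν w ≤ 1} :=
          Finset.sum_le_sum fun j _ => hpiece j
      _ = _ := by
          have hcast : ((2 ^ k : ℕ) : ENNReal) = ENNReal.ofReal ((2 : ℝ) ^ k) := by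
            rw [ENNReal.ofReal_pow (by norm_num)]; simp
          rw [Finset.sum_const, Finset.card_univ, Fintype.card_fin, nsmul_eq_mul, hcast,
            ENNReal.ofReal_mul (by positivity), mul_assoc]
  by_contra hcon
  push Not at hcon
  have hr1 : r < 1/2 := by
    rw [hr, div_lt_iff₀ hL0]; linarith
  have h5 : (2:ℝ)^k * r^N < 1 := by
    have hN0 : N ≠ 0 := by omega
    calc (2:ℝ)^k * r^N ≤ 2^N * r^N := by gcongr; norm_num
      _ = (2 * r)^N := by rw [mul_pow]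
      _ < 1 := pow_lt_one₀ (by positivity) (by linarith) hN0
  have h6 : ENNReal.ofReal (2^k * r^N) * volume {w | ν w ≤ 1} < volume {w | ν w ≤ 1} := by
    calc ENNReal.ofReal (2^k * r^N) * volume {w | ν w ≤ 1} < 1 * volume {w | ν w ≤ 1} := by
          apply ENNReal.mul_lt_mul_left hv0' hvt'
          rw [ENNReal.ofReal_lt_one]; exact h5
      _ = _ := one_mul _
  exact absurd htot (not_le.2 h6)

end H396
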