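import Pool.Agent.H396R3.Pair
import Pool.Agent.EntX.L_gauss_sup
import Pool.Agent.EntX.L_vol_net
import Pool.Agent.EntX.L_netP_two
import Pool.Agent.HypVol.L_card_layer

open MeasureTheory Real
open scoped ENNReal BigOperators

set_option autoImplicit false

namespace H396

open HypVol

/-- coordinates of the block index -/
noncomputable def bj {n : ℕ} (k : layer 2 n) : ℕ := Nat.size (k.1 0).natAbs

theorem bj_le {n : ℕ} (k : layer 2 n) : bj k < n + 1 := by
  have := (mem_layer_iff 2 n k.1).1 k.2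
  rw [Fin.sum_univ_two] at this
  unfold bj; omega

noncomputable def bjf {n : ℕ} (k : layer 2 n) : Fin (n+1) := ⟨bj k, bj_le k⟩

theorem blk_card (n j : ℕ) : (Finset.univ.filter (fun k : layer 2 n => bj k = j)).card ≤ 2^n := by
  classical
  by_cases hj : j ≤ n
  · have h1 : (Finset.univ.filter (fun k : layer 2 n => bj k = j)).card
        ≤ ((Sol_card_layer.card_layer_blk j) ×ˢ (Sol_card_layer.card_layer_blk (n - j))).card := by
      refine Finset.card_le_card_of_injOn (fun k => (k.1 0, k.1 1)) ?_ ?_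
      · intro k hk
        have hk' : bj k = j := by simpa using hk
        have h2 := (mem_layer_iff 2 n k.1).1 k.2
        rw [Fin.sum_univ_two] at h2
        rw [Finset.mem_coe, Finset.mem_product, Sol_card_layer.card_layer_mem,
          Sol_card_layer.card_layer_mem]
        unfold bj at hk'
        simp only
        omega
      · intro k _ l _ h
        simp only [Prod.mk.injEq] at h
        apply Subtype.ext
        funext i
        fin_cases i
        · exact h.1
        · exact h.2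
    refine h1.trans ?_
    rw [Finset.card_product, Sol_card_layer.card_layer_card, Sol_card_layer.card_layer_card, ← pow_add]
    rw [show j + (n - j) = n by omega]
  · have : Finset.univ.filter (fun k : layer 2 n => bj k = j) = ∅ := by
      rw [Finset.filter_eq_empty_iff]
      intro k _ h
      have := bj_le k
      omega
    rw [this]; simp

theorem layer_card_le (n : ℕ) : ((layer 2 n).card : ℝ) ≤ 2^n * ((n:ℝ) + 1) := by
  classical
  have h1 : (layer 2 n).card = ∑ j ∈ Finset.range (n+1),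
      (Finset.univ.filter (fun k : layer 2 n => bj k = j)).card := by
    rw [← Finset.card_eq_sum_card_fiberwise (f := bj) (s := Finset.univ)]
    · simp
    · intro k _
      simpa using bj_le k
  have h2 : (layer 2 n).card ≤ (n+1) * 2^n := by
    rw [h1]
    refine (Finset.sum_le_card_nsmul _ _ (2^n) (fun j _ => blk_card n j)).trans ?_
    simp
  have h3 : ((layer 2 n).card : ℝ) ≤ (((n+1) * 2^n : ℕ) : ℝ) := by exact_mod_cast h2
  push_cast at h3
  linarith

/-- multiplication of the block `j` by the conjugate of `v j` -/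
noncomputable def tw {n : ℕ} (v : Fin (n+1) × Fin 2 → ℝ) (u : (layer 2 n) × Fin 2 → ℝ) :
    (layer 2 n) × Fin 2 → ℝ := fun i =>
  if i.2 = 0 then v (bjf i.1, 0) * u (i.1, 0) + v (bjf i.1, 1) * u (i.1, 1)
  else v (bjf i.1, 0) * u (i.1, 1) - v (bjf i.1, 1) * u (i.1, 0)

theorem tw_poly {n : ℕ} (v : Fin (n+1) × Fin 2 → ℝ) (u : (layer 2 n) × Fin 2 → ℝ) (x : Fin 2 → ℝ) :
    poly (tw v u) x = ∑ j : Fin (n+1), ((v (j, 0) : ℂ) - (v (j, 1) : ℂ) * Complex.I) * poly (res j u) x := by
  unfold poly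
  simp_rw [Finset.mul_sum]
  rw [Finset.sum_comm]
  refine Finset.sum_congr rfl fun k _ => ?_
  rw [Finset.sum_eq_single_of_mem (bjf k) (Finset.mem_univ _)]
  · have e1 : res (bjf k : ℕ) u (k, 0) = u (k, 0) := by simp [res, bjf, bj]
    have e2 : res (bjf k : ℕ) u (k, 1) = u (k, 1) := by simp [res, bjf, bj]
    rw [e1, e2]
    have e3 : tw v u (k, 0) = v (bjf k, 0) * u (k, 0) + v (bjf k, 1) * u (k, 1) := by simp [tw]
    have e4 : tw v u (k, 1) = v (bjf k, 0) * u (k, 1) - v (bjf k, 1) * u (k, 0) := by simp [tw]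
    rw [e3, e4]
    push_cast
    have hI := Complex.I_mul_I
    linear_combination (v (bjf k, 1) : ℂ) * (u (k, 1) : ℂ) * Complex.exp (Complex.I * ∑ j, (k.1 j : ℂ) * (x j : ℂ)) * hI
  · intro j _ hj
    have h : ¬ Nat.size (k.1 0).natAbs = (j : ℕ) := by
      intro h
      apply hj
      apply Fin.ext
      show (j : ℕ) = Nat.size (k.1 0).natAbs
      exact h.symm
    simp [res, h]

/-- coefficients of the real and imaginary part of `poly (tw v u)` at a point -/
noncomputable def cb {n : ℕ} {Y : Type} (g : Y → Fin 2 → ℝ) (v : Fin (n+1) × Fin 2 → ℝ) (y : Y) (e : Fin 2)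
    (β : (layer 2 n) × Fin 2) : ℝ :=
  if e = 0 then v (bjf β.1, 0) * Sol_EX_gauss_sup.vl_b g β (y, 0) + v (bjf β.1, 1) * Sol_EX_gauss_sup.vl_b g β (y, 1)
  else v (bjf β.1, 0) * Sol_EX_gauss_sup.vl_b g β (y, 1) - v (bjf β.1, 1) * Sol_EX_gauss_sup.vl_b g β (y, 0)

theorem cb_re {n : ℕ} {Y : Type} (g : Y → Fin 2 → ℝ) (v : Fin (n+1) × Fin 2 → ℝ) (y : Y)
    (u : (layer 2 n) × Fin 2 → ℝ) :
    (poly (tw v u) (g y)).re = ∑ β, u β * cb g v y 0 β := by
  rw [Sol_EX_gauss_sup.vl_re, Fintype.sum_prod_type, Fintype.sum_prod_type]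
  refine Finset.sum_congr rfl fun k _ => ?_
  rw [Fin.sum_univ_two, Fin.sum_univ_two]
  simp [tw, cb, Sol_EX_gauss_sup.vl_b]
  ring

theorem cb_im {n : ℕ} {Y : Type} (g : Y → Fin 2 → ℝ) (v : Fin (n+1) × Fin 2 → ℝ) (y : Y)
    (u : (layer 2 n) × Fin 2 → ℝ) :
    (poly (tw v u) (g y)).im = ∑ β, u β * cb g v y 1 β := by
  rw [Sol_EX_gauss_sup.vl_im, Fintype.sum_prod_type, Fintype.sum_prod_type]
  refine Finset.sum_congr rfl fun k _ => ?_
  rw [Fin.sum_univ_two, Fin.sum_univ_two]
  simp [tw, cb, Sol_EX_gauss_sup.vl_b]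
  ring

theorem cb_sq {n : ℕ} {Y : Type} (g : Y → Fin 2 → ℝ) (v : Fin (n+1) × Fin 2 → ℝ) (y : Y) (e : Fin 2) :
    ∑ β : (layer 2 n) × Fin 2, cb g v y e β ^ 2 ≤ 2^n * ∑ i, v i ^ 2 := by
  classical
  have h1 : ∑ β : (layer 2 n) × Fin 2, cb g v y e β ^ 2
      = ∑ k : layer 2 n, (v (bjf k, 0)^2 + v (bjf k, 1)^2) := by
    rw [Fintype.sum_prod_type]
    refine Finset.sum_congr rfl fun k _ => ?_
    rw [Fin.sum_univ_two]
    have hc := Real.cos_sq_add_sin_sq ((k.1 0 : ℝ) * g y 0 + (k.1 1 : ℝ) * g y 1)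
    fin_cases e
    · simp [cb, Sol_EX_gauss_sup.vl_b]
      linear_combination (v (bjf k, 0)^2 + v (bjf k, 1)^2) * hc
    · simp [cb, Sol_EX_gauss_sup.vl_b]
      linear_combination (v (bjf k, 0)^2 + v (bjf k, 1)^2) * hc
  rw [h1, Fintype.sum_prod_type]
  have h2 : ∑ k : layer 2 n, (v (bjf k, 0)^2 + v (bjf k, 1)^2)
      = ∑ j : Fin (n+1), ((Finset.univ.filter (fun k : layer 2 n => bjf k = j)).card : ℝ)
        * (v (j, 0)^2 + v (j, 1)^2) := by
    rw [← Finset.sum_fiberwise (s := Finset.univ) (g := bjf)]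
    refine Finset.sum_congr rfl fun j _ => ?_
    rw [Finset.sum_congr rfl (g := fun _ => (v (j, 0)^2 + v (j, 1)^2)), Finset.sum_const, nsmul_eq_mul]
    intro k hk
    rw [(Finset.mem_filter.1 hk).2]
  rw [h2, Finset.mul_sum]
  refine Finset.sum_le_sum fun j _ => ?_
  rw [Fin.sum_univ_two]
  have h3 : (Finset.univ.filter (fun k : layer 2 n => bjf k = j)).card ≤ 2^n := by
    have : Finset.univ.filter (fun k : layer 2 n => bjf k = j)
        = Finset.univ.filter (fun k : layer 2 n => bj k = (j : ℕ)) := by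
      ext k
      simp only [Finset.mem_filter, Finset.mem_univ, true_and, bjf, Fin.ext_iff]
    rw [this]; exact blk_card n j
  have h4 : ((Finset.univ.filter (fun k : layer 2 n => bjf k = j)).card : ℝ) ≤ 2^n := by
    exact_mod_cast h3
  exact mul_le_mul_of_nonneg_right h4 (by positivity)

end H396
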