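import Pool.Agent.H396R3.Gauss

open MeasureTheory Real
open scoped ENNReal BigOperators

set_option autoImplicit false

namespace H396

open HypVol

theorem eu_sq {ι : Type} [Fintype ι] (a : ι → ℝ) : eu a ^ 2 = ∑ i, a i ^ 2 := by
  unfold eu
  exact Real.sq_sqrt (Finset.sum_nonneg (fun i _ => sq_nonneg _))

theorem inner_le_eu {ι : Type} [Fintype ι] (a b : ι → ℝ) : ∑ i, a i * b i ≤ eu a * eu b := by
  have h := Finset.sum_mul_sq_le_sq_mul_sq Finset.univ a b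
  have h1 : (∑ i, a i * b i)^2 ≤ (eu a * eu b)^2 := by
    rw [mul_pow, eu_sq, eu_sq]; exact h
  exact le_of_sq_le_sq h1 (mul_nonneg (Real.sqrt_nonneg _) (Real.sqrt_nonneg _))

/-- from the bounds on the net to the bound for the vector -/
theorem net_norm {n : ℕ} (F : Finset (Fin (n+1) × Fin 2 → ℝ))
    (hF : ∀ a : Fin (n+1) × Fin 2 → ℝ, eu a ≤ 1 → ∃ s ∈ F, eu (a - s) ≤ 1/2)
    (u : (layer 2 n) × Fin 2 → ℝ) (x : Fin 2 → ℝ) (R : ℝ) (hR : 0 ≤ R)
    (h : ∀ v ∈ F, ‖poly (tw v u) x‖ ≤ R) :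
    ∑ j ∈ Finset.range (n+1), ‖poly (res j u) x‖ ^ 2 ≤ (2 * R)^2 := by
  let w : Fin (n+1) × Fin 2 → ℝ := fun i =>
    if i.2 = 0 then (poly (res i.1 u) x).re else (poly (res i.1 u) x).im
  have hw : eu w ^ 2 = ∑ j ∈ Finset.range (n+1), ‖poly (res j u) x‖ ^ 2 := by
    rw [eu_sq, Fintype.sum_prod_type, ← Fin.sum_univ_eq_sum_range (fun j => ‖poly (res j u) x‖ ^ 2)]
    refine Finset.sum_congr rfl fun j _ => ?_
    rw [Fin.sum_univ_two, ← Complex.normSq_eq_norm_sq, Complex.normSq_apply]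
    simp [w]; ring
  have hre : ∀ v, (poly (tw v u) x).re = ∑ i, v i * w i := by
    intro v
    rw [tw_poly, Complex.re_sum, Fintype.sum_prod_type]
    refine Finset.sum_congr rfl fun j _ => ?_
    rw [Fin.sum_univ_two]
    simp [w]
  rw [← hw]
  have hw0 : 0 ≤ eu w := Real.sqrt_nonneg _
  have hR2 : eu w ≤ 2 * R := by
    rcases hw0.eq_or_lt with h0 | h0
    · rw [← h0]; positivity
    · obtain ⟨s, hs, hs1⟩ := hF ((eu w)⁻¹ • w) (by
        rw [Sol_EX_netP_two.eu_smul, abs_of_pos (inv_pos.2 h0), inv_mul_cancel₀ h0.ne'])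
      have h1 : ∑ i, ((eu w)⁻¹ • w) i * w i = eu w := by
        have : ∑ i, ((eu w)⁻¹ • w) i * w i = (eu w)⁻¹ * ∑ i, w i ^ 2 := by
          rw [Finset.mul_sum]
          refine Finset.sum_congr rfl fun i _ => ?_
          simp only [Pi.smul_apply, smul_eq_mul]; ring
        rw [this, ← eu_sq, pow_two, inv_mul_cancel_left₀ h0.ne']
      have h2 : ∑ i, ((eu w)⁻¹ • w) i * w i = ∑ i, s i * w i + ∑ i, ((eu w)⁻¹ • w - s) i * w i := by
        rw [← Finset.sum_add_distrib]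
        refine Finset.sum_congr rfl fun i _ => ?_
        simp only [Pi.sub_apply]; ring
      have h3 : ∑ i, s i * w i ≤ R := by
        rw [← hre]
        exact (Complex.re_le_norm _).trans (h s hs)
      have h4 := inner_le_eu ((eu w)⁻¹ • w - s) w
      have h5 : eu ((eu w)⁻¹ • w - s) * eu w ≤ 1/2 * eu w := mul_le_mul_of_nonneg_right hs1 hw0
      linarith
  exact pow_le_pow_left₀ hw0 hR2 2

theorem log_bound (n : ℕ) (c : ℕ) (hc : (c : ℝ) ≤ 5^(2*(n+1))) (c2 : ℕ)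
    (hc2 : c2 ≤ 4 * 2 ^ ((3 * n + 8) * 2)) :
    Real.log (4 * ((c * c2 + c2 : ℕ) : ℝ)) ≤ 100 * ((n : ℝ) + 1) := by
  rcases Nat.eq_zero_or_pos c2 with h0 | h0
  · rw [h0]; simp; positivity
  have hpos : (0:ℝ) < 4 * ((c * c2 + c2 : ℕ) : ℝ) := by positivity
  rw [Real.log_le_iff_le_exp hpos]
  have h1 : ((c * c2 + c2 : ℕ) : ℝ) ≤ (5^(2*(n+1)) + 1) * (4 * 2 ^ ((3 * n + 8) * 2)) := by
    push_cast
    have h2 : (c2 : ℝ) ≤ 4 * 2 ^ ((3 * n + 8) * 2) := by exact_mod_cast hc2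
    have h3 : (0:ℝ) ≤ c2 := Nat.cast_nonneg _
    calc (c : ℝ) * c2 + c2 = (c + 1) * c2 := by ring
      _ ≤ (5^(2*(n+1)) + 1) * (4 * 2 ^ ((3 * n + 8) * 2)) := by
        apply mul_le_mul _ h2 h3 (by positivity)
        linarith
  have h4 : (5:ℝ)^(2*(n+1)) + 1 ≤ 2^(8 * (n+1)) := by
    have e1 : (5:ℝ)^(2*(n+1)) = 25^(n+1) := by rw [pow_mul]; norm_num
    have e2 : (2:ℝ)^(8*(n+1)) = 256^(n+1) := by rw [pow_mul]; norm_num
    rw [e1, e2]
    have h5 : (25:ℝ)^(n+1) ≤ 128^(n+1) := pow_le_pow_left₀ (by norm_num) (by norm_num) _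
    have h6 : (128:ℝ)^(n+1) + 1 ≤ 256^(n+1) := by
      have e3 : (256:ℝ)^(n+1) = 2^(n+1) * 128^(n+1) := by rw [← mul_pow]; norm_num
      have h7 : (1:ℝ) ≤ 128^(n+1) := one_le_pow₀ (by norm_num)
      have h8 : (2:ℝ) ≤ 2^(n+1) := by
        calc (2:ℝ) = 2^1 := by norm_num
          _ ≤ 2^(n+1) := pow_le_pow_right₀ (by norm_num) (by omega)
      rw [e3]; nlinarith
    linarith
  have h5 : 4 * ((c * c2 + c2 : ℕ) : ℝ) ≤ 2^(2 + (8*(n+1) + (2 + (3*n+8)*2))) := by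
    rw [pow_add, pow_add, pow_add]
    calc 4 * ((c * c2 + c2 : ℕ) : ℝ) ≤ 4 * ((5^(2*(n+1)) + 1) * (4 * 2 ^ ((3 * n + 8) * 2))) := by
          linarith
      _ ≤ 4 * (2^(8 * (n+1)) * (4 * 2 ^ ((3 * n + 8) * 2))) := by gcongr
      _ = _ := by ring
  have h6 : (2:ℝ)^(2 + (8*(n+1) + (2 + (3*n+8)*2))) ≤ Real.exp (100 * ((n:ℝ) + 1)) := by
    have h7 : (2:ℝ) ≤ Real.exp 1 := by
      have := Real.add_one_le_exp (1:ℝ); linarith
    calc (2:ℝ)^(2 + (8*(n+1) + (2 + (3*n+8)*2))) ≤ (Real.exp 1)^(2 + (8*(n+1) + (2 + (3*n+8)*2))) :=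
          pow_le_pow_left₀ (by norm_num) h7 _
      _ = Real.exp ((2 + (8*(n+1) + (2 + (3*n+8)*2)) : ℕ) : ℝ) := by
          rw [← Real.exp_nat_mul]; simp
      _ ≤ _ := by
          apply Real.exp_le_exp.2
          push_cast
          have : (0:ℝ) ≤ n := Nat.cast_nonneg n
          nlinarith
  exact h5.trans h6

theorem gauss_blocks (n : ℕ) : (1/2 : ℝ≥0∞) ≤ gam ((layer 2 n) × Fin 2) 1
    {u | ∀ x, ∑ j ∈ Finset.range (n+1), ‖poly (res j u) x‖ ^ 2 ≤ (400 * Real.sqrt (2^n * ((n:ℝ) + 1)))^2} := by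
  classical
  obtain ⟨F0, hF0c, hF0⟩ := vol_net (eu : (Fin (n+1) × Fin 2 → ℝ) → ℝ) Sol_EX_netP_two.eu_add
    Sol_EX_netP_two.eu_smul Sol_EX_netP_two.eu_cont Sol_EX_netP_two.eu_pos (1/2) (by norm_num) (by norm_num)
  let F : Finset (Fin (n+1) × Fin 2 → ℝ) := F0.filter (fun s => eu s ≤ 2)
  have hFc : (F.card : ℝ) ≤ 5^(2*(n+1)) := by
    have h1 : (F.card : ℝ) ≤ F0.card := by exact_mod_cast Finset.card_filter_le _ _
    refine (h1.trans hF0c).trans (le_of_eq ?_)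
    rw [Fintype.card_prod, Fintype.card_fin, Fintype.card_fin, mul_comm]
    norm_num
  have hF : ∀ a : Fin (n+1) × Fin 2 → ℝ, eu a ≤ 1 → ∃ s ∈ F, eu (a - s) ≤ 1/2 := by
    intro a ha
    obtain ⟨s, hs, hs1⟩ := hF0 a ha
    refine ⟨s, Finset.mem_filter.2 ⟨hs, ?_⟩, hs1⟩
    have e : s = a + (-1 : ℝ) • (a - s) := by
      funext i; simp
    have h2 := Sol_EX_netP_two.eu_add a ((-1 : ℝ) • (a - s))
    rw [← e, Sol_EX_netP_two.eu_smul] at h2
    have : |(-1:ℝ)| = 1 := by norm_num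
    rw [this, one_mul] at h2
    linarith
  have hF2 : ∀ v ∈ F, ∑ i, v i ^ 2 ≤ 4 := by
    intro v hv
    have h1 := (Finset.mem_filter.1 hv).2
    rw [← eu_sq]
    have h0 : 0 ≤ eu v := Real.sqrt_nonneg _
    nlinarith
  obtain ⟨m, hm⟩ : ∃ m : ℕ, m = 3 * n + 8 := ⟨_, rfl⟩
  have hm' : m = (n + 1) * 2 + 2 + n + 4 := by omega
  have hQ : 0 < 2 ^ m := by positivity
  haveI : NeZero (2 ^ m) := ⟨hQ.ne'⟩
  let g : (Fin 2 → Fin (2 ^ m)) → Fin 2 → ℝ := fun x j =>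
      2 * π * ((x j : ℕ) : ℝ) / ((2 ^ m : ℕ) : ℝ)
  let Y := ((Fin 2 → Fin (2 ^ m)) × Fin 2) ⊕ ((layer 2 n) × Fin 2)
  let J := (F × Y) ⊕ Y
  have hN : (0:ℝ) < 4 * 2^n := by positivity
  let cf : J → ((layer 2 n) × Fin 2) → ℝ := fun j β =>
    Sum.elim (fun q : F × Y => Sum.elim (fun y => cb g q.1.1 y.1 y.2 β) (fun _ => 0) q.2)
      (fun y => Sum.elim (fun _ => 0) (fun β' => if β = β' then 1 else 0) y) j
  have hcf : ∀ j, ∑ β, cf j β ^ 2 ≤ 4 * 2^n := by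
    rintro (⟨v, y | β'⟩ | y | β')
    · show ∑ β, cb g v.1 y.1 y.2 β ^ 2 ≤ 4 * 2^n
      refine (cb_sq g v.1 y.1 y.2).trans ?_
      have := hF2 v.1 v.2
      have h2 : (0:ℝ) < 2^n := by positivity
      nlinarith
    · simp [cf]
    · simp [cf]
    · have : ∑ β, cf (Sum.inr (Sum.inr β')) β ^ 2 = 1 := by
        simp [cf]
      rw [this]
      have : (1:ℝ) ≤ 2^n := one_le_pow₀ (by norm_num)
      linarith
  have hYne : Nonempty Y := ⟨Sum.inl (fun _ => 0, 0)⟩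
  have hJne : Nonempty J := ⟨Sum.inr hYne.some⟩
  have hu := Sol_EX_gauss_sup.union_406 cf (4 * 2^n) hN hcf
  have hYc : Fintype.card Y ≤ 4 * 2 ^ ((3 * n + 8) * 2) := by
    have hl : (layer 2 n).card ≤ 2 ^ ((n + 1) * 2) := by
      exact_mod_cast Sol_EX_gauss_sup.vl_card 2 n
    have hl2 : (layer 2 n).card ≤ 2 ^ (m * 2) :=
      hl.trans (Nat.pow_le_pow_right (by norm_num) (by omega))
    show Fintype.card (((Fin 2 → Fin (2 ^ m)) × Fin 2) ⊕ ((layer 2 n) × Fin 2)) ≤ _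
    rw [Fintype.card_sum, Fintype.card_prod, Fintype.card_prod, Fintype.card_fun, Fintype.card_fin,
      Fintype.card_fin, Fintype.card_coe, ← pow_mul, ← hm]
    omega
  have hJc : Fintype.card J = F.card * Fintype.card Y + Fintype.card Y := by
    show Fintype.card ((F × Y) ⊕ Y) = _
    rw [Fintype.card_sum, Fintype.card_prod, Fintype.card_coe]
  have hlog : Real.log (4 * (Fintype.card J : ℝ)) ≤ 100 * ((n : ℝ) + 1) := by
    rw [hJc]; exact log_bound n _ hFc _ hYc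
  obtain ⟨R, hR⟩ : ∃ R : ℝ, R = Real.sqrt (2 * (4 * 2^n) * Real.log (4 * (Fintype.card J : ℝ))) := ⟨_, rfl⟩
  rw [← hR] at hu
  have hJ1 : (1 : ℝ) ≤ (Fintype.card J : ℝ) := by exact_mod_cast Fintype.card_pos
  have hlog0 : 0 < Real.log (4 * (Fintype.card J : ℝ)) := Real.log_pos (by linarith)
  have hR0 : 0 < R := by rw [hR]; positivity
  have hRle : R ≤ 30 * Real.sqrt (2^n * ((n:ℝ) + 1)) := by
    rw [hR]
    have : (30:ℝ) = Real.sqrt 900 := by
      rw [show (900:ℝ) = 30^2 by norm_num, Real.sqrt_sq (by norm_num)]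
    rw [this, ← Real.sqrt_mul (by norm_num)]
    apply Real.sqrt_le_sqrt
    have h2 : (0:ℝ) < 2^n := by positivity
    have h3 : (0:ℝ) ≤ n := Nat.cast_nonneg n
    calc 2 * (4 * 2^n) * Real.log (4 * (Fintype.card J : ℝ)) ≤ 2 * (4 * 2^n) * (100 * ((n:ℝ)+1)) := by gcongr
      _ ≤ 900 * (2^n * ((n:ℝ) + 1)) := by nlinarith [mul_nonneg h2.le h3]
  refine hu.trans (measure_mono ?_)
  intro u hu2 x
  have hu2' : ∀ j, |∑ i, u i * cf j i| ≤ R := hu2
  have hcoord : ∀ β, |u β| ≤ R := by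
    intro β
    have := hu2' (Sum.inr (Sum.inr β))
    simpa [cf] using this
  have hsm := Sol_EX_gauss_sup.vl_small 2 n
  rw [← hm'] at hsm
  have hkey : ∀ v ∈ F, ‖poly (tw v u) x‖ ≤ 6 * R := by
    intro v hv
    have hv1 : ∀ i, |v i| ≤ 2 := by
      intro i
      have h1 := hF2 v hv
      have h2 : v i ^ 2 ≤ ∑ i, v i ^ 2 := Finset.single_le_sum (f := fun i => v i ^ 2) (fun _ _ => sq_nonneg _) (Finset.mem_univ i)
      have h3 : v i ^ 2 ≤ 2^2 := by linarith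
      exact abs_le_of_sq_le_sq h3 (by norm_num)
    have hc2 : ∀ i, |tw v u i| ≤ 4 * R := by
      rintro ⟨k, e⟩
      unfold tw
      split_ifs
      · refine (abs_add_le _ _).trans ?_
        rw [abs_mul, abs_mul]
        have h1 := mul_le_mul (hv1 (bjf k, 0)) (hcoord (k, 0)) (abs_nonneg _) (by norm_num)
        have h2 := mul_le_mul (hv1 (bjf k, 1)) (hcoord (k, 1)) (abs_nonneg _) (by norm_num)
        linarith
      · refine (abs_sub _ _).trans ?_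
        rw [abs_mul, abs_mul]
        have h1 := mul_le_mul (hv1 (bjf k, 0)) (hcoord (k, 1)) (abs_nonneg _) (by norm_num)
        have h2 := mul_le_mul (hv1 (bjf k, 1)) (hcoord (k, 0)) (abs_nonneg _) (by norm_num)
        linarith
    have h4R : 0 < 4 * R := by positivity
    have ha : ∀ i, |((4 * R)⁻¹ • tw v u) i| ≤ 1 := by
      intro i
      rw [Pi.smul_apply, smul_eq_mul, abs_mul, abs_of_pos (inv_pos.2 h4R), inv_mul_le_one₀ h4R]
      exact hc2 i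
    obtain ⟨y, hy⟩ := Sol_EX_gauss_sup.vl_close (2 ^ m) hQ ((4 * R)⁻¹ • tw v u) ha (by exact_mod_cast hsm) x
    rw [Sol_EX_gauss_sup.vl_smul, Sol_EX_gauss_sup.vl_smul, norm_mul, norm_mul, Complex.norm_real, Real.norm_eq_abs,
      abs_of_pos (inv_pos.2 h4R)] at hy
    have hy2 : ‖poly (tw v u) x‖ ≤ ‖poly (tw v u) (g y)‖ + 4 * R := by
      have := mul_le_mul_of_nonneg_left hy h4R.le
      rw [mul_add, mul_one, mul_inv_cancel_left₀ h4R.ne', mul_inv_cancel_left₀ h4R.ne'] at this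
      exact this
    have h1 : ‖poly (tw v u) (g y)‖ ≤ 2 * R := by
      refine (Complex.norm_le_abs_re_add_abs_im _).trans ?_
      rw [cb_re, cb_im]
      have e0 := hu2' (Sum.inl (⟨v, hv⟩, Sum.inl (y, 0)))
      have e1 := hu2' (Sum.inl (⟨v, hv⟩, Sum.inl (y, 1)))
      simp only [cf, Sum.elim_inl] at e0 e1
      linarith
    linarith
  have h5R : (0:ℝ) ≤ 6 * R := by positivity
  refine (net_norm F hF u x (6 * R) h5R hkey).trans ?_
  apply pow_le_pow_left₀ (by positivity)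
  linarith

/-- typical Gaussian vectors pair boundedly with the `L_1` ball of the layer, `d = 2` -/
theorem key (n : ℕ) : (1/2 : ℝ≥0∞) ≤ gam ((layer 2 n) × Fin 2) 1
    {u | ∀ a : (layer 2 n) × Fin 2 → ℝ, eLpNorm (poly a) 1 (TP 2) ≤ 1 →
      |∑ i, a i * u i| ≤ 2400 * Real.exp (1/2) * Real.sqrt (2^n * ((n:ℝ) + 1))} := by
  refine (gauss_blocks n).trans (measure_mono ?_)
  intro u hu a ha
  have h1 : (0:ℝ) < 400 * Real.sqrt (2^n * ((n:ℝ) + 1)) := by positivity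
  refine (pair_bound n u a _ h1 hu ha).trans (le_of_eq ?_)
  ring

end H396
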