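import Pool.Agent.H396R3.Tail

open MeasureTheory Real Filter
open scoped ENNReal BigOperators Topology

set_option autoImplicit false

namespace H396

open HypVol MWidth Sol_num_sums

/-- the parameter of the nets above the critical layer -/
noncomputable def tau (μ : ℝ) (m n : ℕ) : ℝ := (2:ℝ)^((1 + μ) * ((n:ℝ) - m)) * ((n:ℝ) / m)

theorem tau_one (μ : ℝ) (hμ : 0 < μ) (m n : ℕ) (hm : 1 ≤ m) (hn : m ≤ n) : 1 ≤ tau μ m n := by
  have hm0 : (0:ℝ) < m := by exact_mod_cast hm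
  have hnm : (m:ℝ) ≤ n := by exact_mod_cast hn
  have h1 : (1:ℝ) ≤ (2:ℝ)^((1 + μ) * ((n:ℝ) - m)) := by
    apply Real.one_le_rpow (by norm_num)
    have : (0:ℝ) ≤ (n:ℝ) - m := by linarith
    positivity
  have h2 : (1:ℝ) ≤ (n:ℝ) / m := by rw [le_div_iff₀ hm0, one_mul]; exact hnm
  unfold tau
  calc (1:ℝ) = 1 * 1 := by ring
    _ ≤ _ := mul_le_mul h1 h2 (by norm_num) (by positivity)

theorem lam2 (a b : ℝ) (n : ℕ) : lam 2 a b n = (2:ℝ)^(-(a * n)) * (max (n:ℝ) 1)^b := by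
  unfold lam
  have : (((2:ℕ):ℝ) - 1) * b = b := by push_cast; ring
  rw [this]

/-- layers below the critical one -/
theorem num1 (a b : ℝ) (m n : ℕ) (hm : 1 ≤ m) (hn : n ≤ m) :
    lam 2 a b n * (2:ℝ)^(-((a + 1) * ((m - n : ℕ) : ℝ))) ≤
      ((2:ℝ)^(-(a * m)) * (m:ℝ)^b) * nsG |b| 1 (m - n) := by
  have hm1 : (1:ℝ) ≤ m := by exact_mod_cast hm
  have hp : 0 < max (n:ℝ) 1 := lt_of_lt_of_le one_pos (le_max_right _ _)
  have hc : ((m - n : ℕ) : ℝ) = m - n := by rw [Nat.cast_sub hn]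
  have hnm' : (n:ℝ) ≤ m := by exact_mod_cast hn
  have e1 : lam 2 a b n * (2:ℝ)^(-((a + 1) * ((m - n : ℕ) : ℝ))) =
      ((2:ℝ)^(-(a * m)) * (2:ℝ)^(-(1 * ((m - n : ℕ) : ℝ)))) * (max (n:ℝ) 1)^b := by
    rw [lam2, ← Real.rpow_add (by norm_num)]
    have : -(a * m) + -(1 * ((m - n : ℕ) : ℝ)) = -(a * n) + -((a + 1) * ((m - n : ℕ) : ℝ)) := by
      rw [hc]; ring
    rw [this, Real.rpow_add (by norm_num)]
    ring
  have e2 : (max (n:ℝ) 1)^b ≤ (m:ℝ)^b * (1 + ((m - n : ℕ) : ℝ))^|b| := by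
    refine ns_ratio _ hp (by linarith) (by positivity) ?_ ?_
    · have : max (n:ℝ) 1 ≤ m := max_le hnm' hm1
      nlinarith [Nat.cast_nonneg (α := ℝ) (m - n)]
    · rw [hc]
      rcases Nat.eq_zero_or_pos n with h | h
      · subst h; simp
      · have hn1 : (1:ℝ) ≤ n := by exact_mod_cast h
        rw [max_eq_left hn1]
        nlinarith
  rw [e1]
  unfold nsG
  calc _ ≤ ((2:ℝ)^(-(a * m)) * (2:ℝ)^(-(1 * ((m - n : ℕ) : ℝ)))) *
        ((m:ℝ)^b * (1 + ((m - n : ℕ) : ℝ))^|b|) :=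
      mul_le_mul_of_nonneg_left e2 (by positivity)
    _ = _ := by ring

/-- layers above the critical one -/
theorem num2 (a b al μ : ℝ) (hal : 0 < al) (m n : ℕ) (hm : 1 ≤ m) (hn : m ≤ n) :
    lam 2 a b n * (tau μ m n)^al ≤
      ((2:ℝ)^(-(a * m)) * (m:ℝ)^b) * nsG (|b| + al) (a - (1 + μ) * al) (n - m) := by
  have hm1 : (1:ℝ) ≤ m := by exact_mod_cast hm
  have hm0 : (0:ℝ) < m := by linarith
  have hc : ((n - m : ℕ) : ℝ) = n - m := by rw [Nat.cast_sub hn]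
  have hnm' : (m:ℝ) ≤ n := by exact_mod_cast hn
  have hn1 : (1:ℝ) ≤ n := by linarith
  have hn0 : (0:ℝ) < n := by linarith
  obtain ⟨j, hj⟩ : ∃ j : ℝ, j = ((n - m : ℕ) : ℝ) := ⟨_, rfl⟩
  have hj0 : 0 ≤ j := by rw [hj]; positivity
  have hnj : (n:ℝ) = m + j := by rw [hj, hc]; ring
  have e1 : (n:ℝ)^b ≤ (m:ℝ)^b * (1 + j)^|b| := by
    refine ns_ratio _ hn0 hm0 hj0 ?_ ?_
    · rw [hnj]; nlinarith
    · rw [hnj]; nlinarith
  have e2 : ((n:ℝ)/m)^al ≤ (1 + j)^al := by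
    apply Real.rpow_le_rpow (by positivity) _ hal.le
    rw [div_le_iff₀ hm0, hnj]; nlinarith
  have e3 : (tau μ m n)^al = (2:ℝ)^((1 + μ) * al * j) * ((n:ℝ)/m)^al := by
    unfold tau
    rw [Real.mul_rpow (by positivity) (by positivity), ← Real.rpow_mul (by norm_num)]
    congr 2
    rw [hj, hc]; ring
  have e4 : (2:ℝ)^(-(a * n)) = (2:ℝ)^(-(a * m)) * (2:ℝ)^(-(a * j)) := by
    rw [← Real.rpow_add (by norm_num)]; congr 1; rw [hnj]; ring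
  have e5 : (2:ℝ)^(-(a * j)) * (2:ℝ)^((1 + μ) * al * j) = (2:ℝ)^(-((a - (1 + μ) * al) * j)) := by
    rw [← Real.rpow_add (by norm_num)]; congr 1; ring
  rw [lam2, max_eq_left hn1, e3, e4]
  unfold nsG
  rw [← hj, ← e5, Real.rpow_add (by linarith)]
  calc (2:ℝ)^(-(a * m)) * (2:ℝ)^(-(a * j)) * (n:ℝ)^b * ((2:ℝ)^((1 + μ) * al * j) * ((n:ℝ)/m)^al)
      ≤ (2:ℝ)^(-(a * m)) * (2:ℝ)^(-(a * j)) * ((m:ℝ)^b * (1 + j)^|b|) *
          ((2:ℝ)^((1 + μ) * al * j) * (1 + j)^al) := by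
        gcongr
    _ = _ := by ring

/-- high layers are dominated by the nets -/
theorem num3 (μ : ℝ) (hμ : 0 < μ) : ∃ L : ℕ, 1 ≤ L ∧ ∀ m n : ℕ, 1 ≤ m → L * m ≤ n → 2 * D2 n ≤ tau μ m n := by
  refine ⟨⌈(4 + μ) / μ⌉₊ + 1, by omega, fun m n hm hn => ?_⟩
  have hm1 : (1:ℝ) ≤ m := by exact_mod_cast hm
  have hm0 : (0:ℝ) < m := by linarith
  have h1 : (4 + μ) / μ ≤ ((⌈(4 + μ) / μ⌉₊ + 1 : ℕ) : ℝ) := by
    push_cast
    exact (Nat.le_ceil _).trans (by linarith)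
  have h2 : ((⌈(4 + μ) / μ⌉₊ + 1 : ℕ) : ℝ) * m ≤ n := by exact_mod_cast hn
  have h3 : (4 + μ) * m ≤ μ * n := by
    have h4 : (4 + μ) / μ * m ≤ n := (mul_le_mul_of_nonneg_right h1 hm0.le).trans h2
    have h5 : μ * ((4 + μ) / μ * m) = (4 + μ) * m := by field_simp
    rw [← h5]
    exact mul_le_mul_of_nonneg_left h4 hμ.le
  have hmn : (m:ℝ) ≤ n := by
    have : μ * m ≤ μ * n := by nlinarith
    exact le_of_mul_le_mul_left this hμ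
  have hn1 : (1:ℝ) ≤ n := by linarith
  have h6 : (n:ℝ) + 2 + m ≤ (1 + μ) * ((n:ℝ) - m) := by nlinarith
  have h7 : (2:ℝ)^((n:ℝ) + 2 + m) ≤ (2:ℝ)^((1 + μ) * ((n:ℝ) - m)) :=
    Real.rpow_le_rpow_of_exponent_le (by norm_num) h6
  have h8 : (2:ℝ)^((n:ℝ) + 2 + m) = 2^n * 4 * 2^m := by
    rw [Real.rpow_add (by norm_num), Real.rpow_add (by norm_num), Real.rpow_natCast, Real.rpow_natCast]
    norm_num
  have h9 : (m:ℝ) ≤ 2^m := by exact_mod_cast (Nat.lt_two_pow_self (n := m)).le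
  unfold D2 tau
  calc 2 * ((2:ℝ)^n * ((n:ℝ) + 1)) ≤ 2 * (2^n * (2 * n)) := by gcongr; linarith
    _ = (2^n * 4 * m) * ((n:ℝ)/m) := by field_simp; ring
    _ ≤ (2^n * 4 * 2^m) * ((n:ℝ)/m) := by gcongr
    _ ≤ _ := by rw [← h8]; gcongr

theorem num4 : ∃ C : ℝ, 0 ≤ C ∧ ∀ m : ℕ, 1 ≤ m →
    (∑ n ∈ Finset.range (m+1), D2 n * (((m - n : ℕ) : ℝ) + 1) ≤ C * 2^m * (m:ℝ)) := by
  obtain ⟨C, hC, h⟩ := ns_p4 1
  refine ⟨2 * C, by positivity, fun m hm => ?_⟩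
  have := h m hm
  rw [pow_one] at this
  calc ∑ n ∈ Finset.range (m+1), D2 n * (((m - n : ℕ) : ℝ) + 1)
      ≤ ∑ n ∈ Finset.range (m+1), 2 * ((2:ℝ)^n * (max (n:ℝ) 1)^1 * ((m - n : ℕ) + 1 : ℝ)) := by
        apply Finset.sum_le_sum
        intro n _
        unfold D2
        have h1 : (n:ℝ) + 1 ≤ 2 * max (n:ℝ) 1 := by
          have h2 := le_max_left (n:ℝ) 1
          have h3 := le_max_right (n:ℝ) 1
          linarith
        calc (2:ℝ)^n * ((n:ℝ) + 1) * (((m - n : ℕ) : ℝ) + 1)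
            ≤ (2:ℝ)^n * (2 * max (n:ℝ) 1) * (((m - n : ℕ) : ℝ) + 1) := by gcongr
          _ = _ := by ring
    _ = 2 * ∑ n ∈ Finset.range (m+1), ((2:ℝ)^n * (max (n:ℝ) 1)^1 * ((m - n : ℕ) + 1 : ℝ)) := by
        rw [Finset.mul_sum]
    _ ≤ 2 * (C * 2^m * (m:ℝ)) := by linarith
    _ = _ := by ring

theorem num5 (μ : ℝ) (hμ : 0 < μ) : ∃ C : ℝ, 0 ≤ C ∧ ∀ (m : ℕ) (s : Finset ℕ), 1 ≤ m →
    (∀ n ∈ s, m < n) → (∑ n ∈ s, D2 n / tau μ m n ≤ C * 2^m * (m:ℝ)) := by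
  refine ⟨2 * ∑' j, nsG 0 μ j, mul_nonneg (by norm_num) (tsum_nonneg (nsG_nonneg _ _)), fun m s hm hs => ?_⟩
  have hm1 : (1:ℝ) ≤ m := by exact_mod_cast hm
  have hm0 : (0:ℝ) < m := by linarith
  have hb : ∀ n ∈ s, D2 n / tau μ m n ≤ (2 * (2:ℝ)^m * (m:ℝ)) * nsG 0 μ (n - m) := by
    intro n hn
    have hmn := hs n hn
    have hnm : m ≤ n := hmn.le
    have hc : ((n - m : ℕ) : ℝ) = n - m := by rw [Nat.cast_sub hnm]
    have hnm' : (m:ℝ) ≤ n := by exact_mod_cast hnm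
    have hn0 : (0:ℝ) < n := by linarith
    unfold nsG
    rw [Real.rpow_zero, one_mul]
    have h2 : (2:ℝ)^n = (2:ℝ)^m * (2:ℝ)^(-(μ * ((n - m : ℕ) : ℝ))) * (2:ℝ)^((1 + μ) * ((n:ℝ) - m)) := by
      rw [← Real.rpow_natCast, ← Real.rpow_natCast, ← Real.rpow_add (by norm_num), ← Real.rpow_add (by norm_num), hc]
      congr 1
      ring
    unfold D2 tau
    have p1 : (0:ℝ) < (2:ℝ)^((1 + μ) * ((n:ℝ) - m)) := by positivity
    have p2 : (0:ℝ) < (2:ℝ)^((1 + μ) * ((n:ℝ) - m)) * ((n:ℝ)/m) := by positivity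
    rw [div_le_iff₀ p2]
    calc (2:ℝ)^n * ((n:ℝ) + 1) ≤ (2:ℝ)^n * (2 * n) := by gcongr; linarith
      _ = ((2:ℝ)^m * (2:ℝ)^(-(μ * ((n - m : ℕ) : ℝ))) * (2:ℝ)^((1 + μ) * ((n:ℝ) - m))) * (2 * n) := by rw [← h2]
      _ = _ := by field_simp
  calc _ ≤ ∑ n ∈ s, ((2 * (2:ℝ)^m * (m:ℝ)) * nsG 0 μ (n - m)) := Finset.sum_le_sum hb
    _ = (2 * (2:ℝ)^m * (m:ℝ)) * ∑ n ∈ s, nsG 0 μ (n - m) := by
        rw [Finset.mul_sum]
    _ ≤ (2 * (2:ℝ)^m * (m:ℝ)) * ∑' j, nsG 0 μ j := by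
        refine mul_le_mul_of_nonneg_left ?_ (by positivity)
        refine ns_fin (nsG_summable _ _ hμ) (nsG_nonneg _ _) _ (fun n => n - m) ?_
        intro x hx y hy h
        have h1 := hs x hx
        have h2 := hs y hy
        simp only at h
        omega
    _ = _ := by ring

theorem rr_summable (p : ℝ) (hp1 : 1 < p) (a b : ℝ) (ha : 1 - 1/p < a) : Summable (rr p a b) := by
  have hp0 : 0 < p := by linarith
  obtain ⟨al, hal⟩ : ∃ al : ℝ, al = 1 - 1/p := ⟨_, rfl⟩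
  have hal0 : 0 < al := by
    rw [hal, sub_pos, div_lt_iff₀ hp0]; linarith
  rw [← hal] at ha
  have h1 := (nsG_summable (|b| + al) (a - al) (by linarith)).mul_left ((4:ℝ)^al)
  refine Summable.of_nonneg_of_le (rr_nonneg p a b) (fun n => ?_) h1
  unfold rr nsG
  rw [← hal, lam2]
  have hn0 : (0:ℝ) ≤ n := Nat.cast_nonneg n
  have hn1 : (0:ℝ) < 1 + n := by linarith
  have e1 : (2 * D2 n)^al ≤ (4:ℝ)^al * ((2:ℝ)^(al * n) * (1 + (n:ℝ))^al) := by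
    have : (2:ℝ)^(al * n) = ((2:ℝ)^n)^al := by
      rw [← Real.rpow_natCast, ← Real.rpow_mul (by norm_num), mul_comm]
    rw [this, ← Real.mul_rpow (by positivity) hn1.le, ← Real.mul_rpow (by norm_num) (by positivity)]
    apply Real.rpow_le_rpow (by have := D2_pos n; positivity) _ hal0.le
    unfold D2
    have : (0:ℝ) < 2^n := by positivity
    nlinarith
  have e2 : (max (n:ℝ) 1)^b ≤ (1 + (n:ℝ))^|b| := by
    calc (max (n:ℝ) 1)^b ≤ (max (n:ℝ) 1)^|b| :=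
          Real.rpow_le_rpow_of_exponent_le (le_max_right _ _) (le_abs_self b)
      _ ≤ (1 + (n:ℝ))^|b| := by
        apply Real.rpow_le_rpow (by positivity) _ (abs_nonneg b)
        exact max_le (by linarith) (by linarith)
  calc (2:ℝ)^(-(a * n)) * (max (n:ℝ) 1)^b * (2 * D2 n)^al
      ≤ (2:ℝ)^(-(a * n)) * (1 + (n:ℝ))^|b| * ((4:ℝ)^al * ((2:ℝ)^(al * n) * (1 + (n:ℝ))^al)) := by
        gcongr
        have := D2_pos n
        positivity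
    _ = (4:ℝ)^al * (((1 + (n:ℝ))^|b| * (1 + (n:ℝ))^al) * ((2:ℝ)^(-(a * n)) * (2:ℝ)^(al * n))) := by ring
    _ = (4:ℝ)^al * ((1 + (n:ℝ))^(|b| + al) * (2:ℝ)^(-((a - al) * n))) := by
        rw [← Real.rpow_add hn1, ← Real.rpow_add (by norm_num)]
        congr 3
        ring

end H396
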