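import Pool.Agent.H396R3.Riesz
import Pool.Agent.EntX.Defs
import Pool.Agent.EntX.L_FC_pair

open MeasureTheory Real
open scoped ENNReal BigOperators Pointwise

set_option autoImplicit false

namespace H396

open HypVol

/-- restriction of the coefficients to the block `j` -/
noncomputable def res {n : ℕ} (j : ℕ) (u : (layer 2 n) × Fin 2 → ℝ) : (layer 2 n) × Fin 2 → ℝ :=
  fun i => if Nat.size (i.1.1 0).natAbs = j then u i else 0

theorem poly_eq_ek {d n : ℕ} (a : (layer d n) × Fin 2 → ℝ) :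
    poly a = ∑ k : layer d n, ((a (k, 0) : ℂ) + (a (k, 1) : ℂ) * Complex.I) • ek k.1 := by
  funext x
  simp only [poly, Finset.sum_apply, Pi.smul_apply, smul_eq_mul, ek]

theorem res_mem {n : ℕ} (j : ℕ) (u : (layer 2 n) × Fin 2 → ℝ) : poly (res j u) ∈ TS (Tb n j) := by
  rw [poly_eq_ek]
  refine Submodule.sum_mem _ fun k _ => ?_
  by_cases h : Nat.size (k.1 0).natAbs = j
  · refine Submodule.smul_mem _ _ (ek_mem ⟨h, ?_⟩)
    have := (mem_layer_iff 2 n k.1).1 k.2
    rw [Fin.sum_univ_two] at this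
    omega
  · have e : ((res j u (k, 0) : ℂ) + (res j u (k, 1) : ℂ) * Complex.I) = 0 := by
      simp [res, h]
    rw [e, zero_smul]
    exact Submodule.zero_mem _

theorem conj_mem {n j : ℕ} {f : (Fin 2 → ℝ) → ℂ} (hf : f ∈ TS (Tb n j)) :
    (fun x => (starRingEnd ℂ) (f x)) ∈ TS (Tb n j) := by
  unfold TS at hf
  induction hf using Submodule.span_induction with
  | mem x hx =>
    obtain ⟨k, hk, rfl⟩ := hx
    have e : (fun x => (starRingEnd ℂ) (ek k x)) = ek (-k) := by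
      funext x; exact ek_conj k x
    rw [e]
    refine ek_mem ⟨?_, ?_⟩
    · simpa using hk.1
    · simpa using hk.2
  | zero =>
    have e : (fun z : Fin 2 → ℝ => (starRingEnd ℂ) ((0 : (Fin 2 → ℝ) → ℂ) z)) = 0 := by
      funext z; simp
    rw [e]; exact Submodule.zero_mem _
  | add x y _ _ hx hy =>
    have e : (fun z => (starRingEnd ℂ) ((x + y) z)) = (fun z => (starRingEnd ℂ) (x z)) +
        (fun z => (starRingEnd ℂ) (y z)) := by
      funext z; simp
    rw [e]; exact Submodule.add_mem _ hx hy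
  | smul c x _ hx =>
    have e : (fun z => (starRingEnd ℂ) ((c • x) z)) = (starRingEnd ℂ c) •
        (fun z => (starRingEnd ℂ) (x z)) := by
      funext z; simp
    rw [e]; exact Submodule.smul_mem _ _ hx

theorem re_mem {n j : ℕ} {f : (Fin 2 → ℝ) → ℂ} (hf : f ∈ TS (Tb n j)) :
    (fun x => (((f x).re : ℝ) : ℂ)) ∈ TS (Tb n j) := by
  have e : (fun x => (((f x).re : ℝ) : ℂ)) = (1/2 : ℂ) • (f + fun x => (starRingEnd ℂ) (f x)) := by
    funext x
    simp only [Pi.smul_apply, Pi.add_apply, smul_eq_mul]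
    rw [Complex.add_conj]; push_cast; ring
  rw [e]
  exact Submodule.smul_mem _ _ (Submodule.add_mem _ hf (conj_mem hf))

theorem im_mem {n j : ℕ} {f : (Fin 2 → ℝ) → ℂ} (hf : f ∈ TS (Tb n j)) :
    (fun x => (((f x).im : ℝ) : ℂ)) ∈ TS (Tb n j) := by
  have e : (fun x => (((f x).im : ℝ) : ℂ)) = (-Complex.I/2 : ℂ) • (f + (-1 : ℂ) • fun x => (starRingEnd ℂ) (f x)) := by
    funext x
    simp only [Pi.smul_apply, Pi.add_apply, smul_eq_mul]
    have : f x + -1 * (starRingEnd ℂ) (f x) = f x - (starRingEnd ℂ) (f x) := by ring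
    rw [this, Complex.sub_conj]
    push_cast
    have hI := Complex.I_mul_I
    linear_combination ((f x).im : ℂ) * hI
  rw [e]
  exact Submodule.smul_mem _ _ (Submodule.add_mem _ hf (Submodule.smul_mem _ _ (conj_mem hf)))

theorem norm_one_add (t : ℝ) : ‖(1 : ℂ) + (t : ℂ) * Complex.I‖ ≤ Real.exp (t^2 / 2) := by
  have h1 : ‖(1 : ℂ) + (t : ℂ) * Complex.I‖ ^ 2 = 1 + t^2 := by
    rw [← Complex.normSq_eq_norm_sq]
    simp [Complex.normSq_apply]
    ring
  have h2 : (Real.exp (t^2 / 2))^2 = Real.exp (t^2) := by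
    rw [← Real.exp_nat_mul]; congr 1; push_cast; ring
  have h3 : 1 + t^2 ≤ Real.exp (t^2) := by linarith [Real.add_one_le_exp (t^2)]
  have h4 : ‖(1 : ℂ) + (t : ℂ) * Complex.I‖ ^ 2 ≤ (Real.exp (t^2 / 2))^2 := by rw [h1, h2]; exact h3
  exact le_of_sq_le_sq h4 (Real.exp_pos _).le

theorem prod_bound (W : ℕ → (Fin 2 → ℝ) → ℝ) (γ : ℝ) (hγ : 0 < γ) (S : Finset ℕ) (x : Fin 2 → ℝ)
    (hx : ∑ j ∈ S, W j x ^ 2 ≤ γ^2) (σ : ℝ) (hσ : σ^2 = 1) :
    ‖(∏ j ∈ S, (1 + ((σ / γ : ℝ) * Complex.I : ℂ) • fun y => ((W j y : ℝ) : ℂ))) x‖ ≤ Real.exp (1/2) := by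
  rw [Finset.prod_apply, norm_prod]
  have h1 : ∀ j ∈ S, ‖((1 + ((σ / γ : ℝ) * Complex.I : ℂ) • fun y => ((W j y : ℝ) : ℂ)) : (Fin 2 → ℝ) → ℂ) x‖
      ≤ Real.exp ((W j x)^2 / (2 * γ^2)) := by
    intro j _
    have e : ((1 + ((σ / γ : ℝ) * Complex.I : ℂ) • fun y => ((W j y : ℝ) : ℂ)) : (Fin 2 → ℝ) → ℂ) x
        = 1 + ((σ / γ * W j x : ℝ) : ℂ) * Complex.I := by
      simp only [Pi.add_apply, Pi.one_apply, Pi.smul_apply, smul_eq_mul]
      push_cast; ring
    rw [e]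
    refine (norm_one_add _).trans (Real.exp_le_exp.2 (le_of_eq ?_))
    rw [mul_pow, div_pow, hσ]
    field_simp
  refine (Finset.prod_le_prod (fun _ _ => norm_nonneg _) h1).trans ?_
  rw [← Real.exp_sum]
  apply Real.exp_le_exp.2
  rw [← Finset.sum_div, div_le_iff₀ (by positivity)]
  linarith

/-- Riesz product lemma -/
theorem riesz (n : ℕ) (W : ℕ → (Fin 2 → ℝ) → ℝ) (γ : ℝ) (hγ : 0 < γ)
    (hW : ∀ j, (fun y => ((W j y : ℝ) : ℂ)) ∈ TS (Tb n j))
    (hx : ∀ x, ∑ j ∈ Finset.range (n+1), W j x ^ 2 ≤ γ^2) :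
    ∃ F : (Fin 2 → ℝ) → ℂ, F ∈ TS (Set.univ) ∧ (∀ x, ‖F x‖ ≤ 3 * Real.exp (1/2) * γ) ∧
      F - ∑ j ∈ Finset.range (n+1), (fun y => ((W j y : ℝ) : ℂ)) ∈ TS {k | k ∉ layer 2 n} := by
  classical
  let S : ℕ → Finset ℕ := fun r => (Finset.range (n+1)).filter (fun j => j % 3 = r)
  let P : ℝ → ℕ → (Fin 2 → ℝ) → ℂ := fun σ r =>
    ∏ j ∈ S r, (1 + ((σ / γ : ℝ) * Complex.I : ℂ) • fun y => ((W j y : ℝ) : ℂ))
  let Fr : ℕ → (Fin 2 → ℝ) → ℂ := fun r => (-Complex.I * (γ / 2 : ℝ) : ℂ) • (P 1 r + (-1 : ℂ) • P (-1) r)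
  have hS : ∀ r, ∀ j ∈ S r, j % 3 = r := fun r j hj => (Finset.mem_filter.1 hj).2
  have hsp := fun (σ : ℝ) r => prod_spec (n := n) r (fun j => (fun y => ((W j y : ℝ) : ℂ)))
    ((σ / γ : ℝ) * Complex.I : ℂ) (S r) (hS r) (fun j _ => hW j)
  have hone : (1 : (Fin 2 → ℝ) → ℂ) ∈ TS (Set.univ) := by
    rw [← ek_zero]; exact ek_mem (Set.mem_univ _)
  have hPm : ∀ σ r, P σ r ∈ TS (Set.univ) := by
    intro σ r
    have h1 := TS_mono (Set.subset_univ _) (hsp σ r).1
    have h2 := Submodule.add_mem _ h1 hone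
    rwa [sub_add_cancel] at h2
  have hPb : ∀ σ : ℝ, σ^2 = 1 → ∀ r x, ‖P σ r x‖ ≤ Real.exp (1/2) := by
    intro σ hσ r x
    refine prod_bound W γ hγ (S r) x ?_ σ hσ
    exact (Finset.sum_le_sum_of_subset_of_nonneg (Finset.filter_subset _ _)
      (fun _ _ _ => sq_nonneg _)).trans (hx x)
  refine ⟨∑ r ∈ Finset.range 3, Fr r, ?_, ?_, ?_⟩
  · refine Submodule.sum_mem _ fun r _ => ?_
    exact Submodule.smul_mem _ _ (Submodule.add_mem _ (hPm 1 r) (Submodule.smul_mem _ _ (hPm (-1) r)))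
  · intro x
    rw [Finset.sum_apply]
    refine (norm_sum_le _ _).trans ?_
    have h1 : ∀ r ∈ Finset.range 3, ‖Fr r x‖ ≤ Real.exp (1/2) * γ := by
      intro r _
      simp only [Fr, Pi.smul_apply, Pi.add_apply, smul_eq_mul, norm_mul, norm_neg, Complex.norm_I,
        one_mul, Complex.norm_real, Real.norm_eq_abs]
      rw [abs_of_pos (by positivity : (0:ℝ) < γ / 2)]
      have h2 := hPb 1 (by norm_num) r x
      have h3 := hPb (-1) (by norm_num) r x
      have h4 : ‖P 1 r x + -1 * P (-1) r x‖ ≤ Real.exp (1/2) + Real.exp (1/2) := by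
        refine (norm_add_le _ _).trans (add_le_add h2 ?_)
        rw [norm_mul]; simpa using h3
      nlinarith
    refine (Finset.sum_le_sum h1).trans (le_of_eq ?_)
    rw [Finset.sum_const, Finset.card_range]
    simp only [nsmul_eq_mul]
    push_cast; ring
  · have e0 : ∑ j ∈ Finset.range (n+1), (fun y => ((W j y : ℝ) : ℂ)) =
        ∑ r ∈ Finset.range 3, ∑ j ∈ S r, (fun y => ((W j y : ℝ) : ℂ)) := by
      rw [Finset.sum_fiberwise_of_maps_to]
      intro j _
      rw [Finset.mem_range]; exact Nat.mod_lt _ (by norm_num)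
    rw [e0, ← Finset.sum_sub_distrib]
    refine Submodule.sum_mem _ fun r _ => ?_
    have h1 := (hsp 1 r).2
    have h2 := (hsp (-1) r).2
    have e : Fr r - ∑ j ∈ S r, (fun y => ((W j y : ℝ) : ℂ)) =
        (-Complex.I * (γ / 2 : ℝ) : ℂ) • (((P 1 r) - 1 - (((1:ℝ) / γ : ℝ) * Complex.I : ℂ) •
          ∑ j ∈ S r, (fun y => ((W j y : ℝ) : ℂ))) + (-1 : ℂ) • ((P (-1) r) - 1 -
          (((-1:ℝ) / γ : ℝ) * Complex.I : ℂ) • ∑ j ∈ S r, (fun y => ((W j y : ℝ) : ℂ)))) := by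
      funext x
      simp only [Fr, Pi.sub_apply, Pi.smul_apply, Pi.add_apply, smul_eq_mul, Pi.one_apply]
      have hg : (γ : ℂ) ≠ 0 := by exact_mod_cast hγ.ne'
      push_cast
      have hI := Complex.I_mul_I
      field_simp
      ring_nf
      rw [Complex.I_sq]
      ring
    rw [e]
    exact Submodule.smul_mem _ _ (Submodule.add_mem _ h1 (Submodule.smul_mem _ _ h2))

theorem sum_res {n : ℕ} (u : (layer 2 n) × Fin 2 → ℝ) :
    ∑ j ∈ Finset.range (n+1), poly (res j u) = poly u := by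
  funext x
  rw [Finset.sum_apply]
  unfold poly
  rw [Finset.sum_comm]
  refine Finset.sum_congr rfl fun k _ => ?_
  have hk : Nat.size (k.1 0).natAbs ∈ Finset.range (n+1) := by
    have := (mem_layer_iff 2 n k.1).1 k.2
    rw [Fin.sum_univ_two] at this
    rw [Finset.mem_range]; omega
  rw [Finset.sum_eq_single_of_mem _ hk]
  · simp [res]
  · intro j _ hj
    have : ¬ Nat.size (k.1 0).natAbs = j := fun h => hj h.symm
    simp [res, this]

/-- pairing with the unit ball of `L_1` -/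
theorem pair_bound (n : ℕ) (u a : (layer 2 n) × Fin 2 → ℝ) (γ : ℝ) (hγ : 0 < γ)
    (hu : ∀ x, ∑ j ∈ Finset.range (n+1), ‖poly (res j u) x‖ ^ 2 ≤ γ^2)
    (ha : eLpNorm (poly a) 1 (TP 2) ≤ 1) :
    |∑ i, a i * u i| ≤ 6 * Real.exp (1/2) * γ := by
  have hR := riesz n (fun j x => (poly (res j u) x).re) γ hγ (fun j => re_mem (res_mem j u))
    (fun x => (Finset.sum_le_sum fun j _ => by
      have := Complex.abs_re_le_norm (poly (res j u) x)
      rw [← sq_abs]; gcongr).trans (hu x))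
  have hI := riesz n (fun j x => (poly (res j u) x).im) γ hγ (fun j => im_mem (res_mem j u))
    (fun x => (Finset.sum_le_sum fun j _ => by
      have := Complex.abs_im_le_norm (poly (res j u) x)
      rw [← sq_abs]; gcongr).trans (hu x))
  obtain ⟨F, hF1, hF2, hF3⟩ := hR
  obtain ⟨G, hG1, hG2, hG3⟩ := hI
  set H : (Fin 2 → ℝ) → ℂ := F + Complex.I • G with hH
  have hH1 : H ∈ TS Set.univ := Submodule.add_mem _ hF1 (Submodule.smul_mem _ _ hG1)
  have hpu : poly u ∈ TS (Set.univ) := by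
    rw [← sum_res u]
    exact Submodule.sum_mem _ fun j _ => TS_mono (Set.subset_univ _) (res_mem j u)
  have hH3 : H - poly u ∈ TS {k | k ∉ layer 2 n} := by
    have e : H - poly u = (F - ∑ j ∈ Finset.range (n+1), (fun y => (((poly (res j u) y).re : ℝ) : ℂ))) +
        Complex.I • (G - ∑ j ∈ Finset.range (n+1), (fun y => (((poly (res j u) y).im : ℝ) : ℂ))) := by
      rw [← sum_res u]
      funext x
      simp only [hH, Pi.sub_apply, Pi.add_apply, Pi.smul_apply, smul_eq_mul, Finset.sum_apply, mul_sub,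
        Finset.mul_sum]
      have : ∑ j ∈ Finset.range (n+1), poly (res j u) x = ∑ j ∈ Finset.range (n+1),
          (((poly (res j u) x).re : ℝ) : ℂ) + ∑ j ∈ Finset.range (n+1),
          Complex.I * (((poly (res j u) x).im : ℝ) : ℂ) := by
        rw [← Finset.sum_add_distrib]
        refine Finset.sum_congr rfl fun j _ => ?_
        rw [mul_comm Complex.I]; exact (Complex.re_add_im _).symm
      rw [this]; ring
    rw [e]
    exact Submodule.add_mem _ hF3 (Submodule.smul_mem _ _ hG3)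
  have hfc : ∀ k ∈ layer 2 n, fc H k = fc (poly u) k := by
    intro k hk
    have h1 := fc_off hH3 (k := k) (by simpa using hk)
    have h2 : H = (H - poly u) + poly u := by ring
    rw [h2, fc_add' (TS_int hH3) (TS_int hpu), h1, zero_add]
  have hFC : FC 2 n H = u := by
    funext i
    obtain ⟨k, e⟩ := i
    unfold FC
    simp only
    rw [hfc k.1 k.2, fc_poly u k]
    fin_cases e <;> simp
  have h1 := FC_pair H (TS_int hH1) a
  rw [hFC] at h1
  rw [← h1]
  refine (Complex.abs_re_le_norm _).trans ?_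
  have hHb : ∀ x, ‖H x‖ ≤ 6 * Real.exp (1/2) * γ := by
    intro x
    simp only [hH, Pi.add_apply, Pi.smul_apply, smul_eq_mul]
    refine (norm_add_le _ _).trans ?_
    rw [norm_mul, Complex.norm_I, one_mul]
    linarith [hF2 x, hG2 x]
  have hC : 0 ≤ 6 * Real.exp (1/2) * γ := by positivity
  have hpa : Integrable (poly a) (TP 2) := by
    have : poly a ∈ TS (Set.univ) := by
      rw [← sum_res a]
      exact Submodule.sum_mem _ fun j _ => TS_mono (Set.subset_univ _) (res_mem j a)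
    exact TS_int this
  have h2 : ∫ x, ‖poly a x‖ ∂(TP 2) ≤ 1 := by
    rw [eLpNorm_one_eq_lintegral_enorm] at ha
    rw [integral_norm_eq_lintegral_enorm hpa.1]
    exact ENNReal.toReal_le_of_le_ofReal (by norm_num) (by simpa using ha)
  calc ‖∫ x, H x * (starRingEnd ℂ) (poly a x) ∂(TP 2)‖
      ≤ ∫ x, ‖H x * (starRingEnd ℂ) (poly a x)‖ ∂(TP 2) := norm_integral_le_integral_norm _
    _ ≤ ∫ x, (6 * Real.exp (1/2) * γ) * ‖poly a x‖ ∂(TP 2) := by
        refine integral_mono_of_nonneg (Filter.Eventually.of_forall fun x => norm_nonneg _)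
          (hpa.norm.const_mul _) (Filter.Eventually.of_forall fun x => ?_)
        show ‖H x * (starRingEnd ℂ) (poly a x)‖ ≤ (6 * Real.exp (1/2) * γ) * ‖poly a x‖
        rw [norm_mul, RCLike.norm_conj]
        exact mul_le_mul_of_nonneg_right (hHb x) (norm_nonneg _)
    _ = (6 * Real.exp (1/2) * γ) * ∫ x, ‖poly a x‖ ∂(TP 2) := integral_const_mul _ _
    _ ≤ _ := by nlinarith

end H396
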