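import Pool.Agent.H396R3.Spec

open MeasureTheory Real
open scoped ENNReal BigOperators Pointwise

set_option autoImplicit false

namespace H396

open HypVol

/-- size of a sum of integers with well separated sizes -/
theorem size_sum (A : Finset ℕ) (w : ℕ → ℕ) (hw : Set.InjOn w A) (m : ℕ) (hm : m ∈ A)
    (hsep : ∀ j ∈ A, j ≠ m → w j + 3 ≤ w m) (z : ℕ → ℤ)
    (hz : ∀ j ∈ A, Nat.size (z j).natAbs = w j) (h3 : 3 ≤ w m) :
    w m ≤ Nat.size (∑ j ∈ A, z j).natAbs + 1 := by
  classical
  have h1 : (2:ℤ)^(w m - 1) ≤ |z m| := by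
    have h : w m - 1 < Nat.size (z m).natAbs := by rw [hz m hm]; omega
    have h2 := Nat.lt_size.1 h
    rw [Int.abs_eq_natAbs]
    exact_mod_cast h2
  have h2 : |∑ j ∈ A.erase m, z j| ≤ 2^(w m - 2) - 1 := by
    refine (Finset.abs_sum_le_sum_abs _ _).trans ?_
    have h4 : ∀ j ∈ A.erase m, |z j| ≤ (2:ℤ)^(w j) := by
      intro j hj
      have hj' := Finset.mem_of_mem_erase hj
      have h5 : (z j).natAbs < 2^(w j) := by
        rw [← hz j hj']; exact Nat.lt_size_self _
      rw [Int.abs_eq_natAbs]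
      exact_mod_cast h5.le
    refine (Finset.sum_le_sum h4).trans ?_
    have h6 : ∑ j ∈ A.erase m, (2:ℤ)^(w j) = ∑ i ∈ (A.erase m).image w, (2:ℤ)^i := by
      rw [Finset.sum_image]
      intro x hx y hy hxy
      exact hw (Finset.mem_of_mem_erase hx) (Finset.mem_of_mem_erase hy) hxy
    rw [h6]
    have h7 : (A.erase m).image w ⊆ Finset.range (w m - 2) := by
      intro i hi
      obtain ⟨j, hj, rfl⟩ := Finset.mem_image.1 hi
      have := hsep j (Finset.mem_of_mem_erase hj) (Finset.ne_of_mem_erase hj)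
      rw [Finset.mem_range]; omega
    refine (Finset.sum_le_sum_of_subset_of_nonneg h7 (fun _ _ _ => by positivity)).trans ?_
    have h8 := Nat.geomSum_eq (le_refl 2) (w m - 2)
    have h9 : ∑ i ∈ Finset.range (w m - 2), (2:ℕ)^i = 2^(w m - 2) - 1 := by
      rw [h8]; simp
    have h10 : ((∑ i ∈ Finset.range (w m - 2), (2:ℕ)^i : ℕ) : ℤ) = ((2^(w m - 2) - 1 : ℕ) : ℤ) := by
      rw [h9]
    rw [Nat.cast_sub Nat.one_le_two_pow] at h10
    push_cast at h10
    rw [h10]
  have h3' : ∑ j ∈ A, z j = z m + ∑ j ∈ A.erase m, z j := (Finset.add_sum_erase A z hm).symm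
  have h4 : (2:ℤ)^(w m - 1) = 2 * 2^(w m - 2) := by
    rw [← pow_succ']; congr 1; omega
  have h5 : (2:ℤ)^(w m - 2) ≤ |∑ j ∈ A, z j| := by
    rw [h3']
    have := abs_sub_abs_le_abs_sub (z m) (-(∑ j ∈ A.erase m, z j))
    rw [abs_neg, sub_neg_eq_add] at this
    have h0 : (0:ℤ) < 2^(w m - 2) := by positivity
    linarith
  have h6 : w m - 2 < Nat.size (∑ j ∈ A, z j).natAbs := by
    rw [Nat.lt_size]
    rw [Int.abs_eq_natAbs] at h5
    exact_mod_cast h5
  omega

/-- the block `ρ(j) × ρ(n-j)` -/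
def Tb (n j : ℕ) : Set (Fin 2 → ℤ) :=
  {k | Nat.size (k 0).natAbs = j ∧ Nat.size (k 1).natAbs + j = n}

/-- sums of frequencies of the blocks `j ∈ A`, `∅ ≠ A ⊆ S` -/
def Sp (n : ℕ) (S : Finset ℕ) : Set (Fin 2 → ℤ) :=
  {κ | ∃ A ⊆ S, A.Nonempty ∧ ∃ z : ℕ → Fin 2 → ℤ, (∀ j ∈ A, z j ∈ Tb n j) ∧ κ = ∑ j ∈ A, z j}

theorem Sp_mono {n : ℕ} {S T : Finset ℕ} (h : S ⊆ T) : Sp n S ⊆ Sp n T := by
  rintro κ ⟨A, hA, hne, z, hz, rfl⟩
  exact ⟨A, hA.trans h, hne, z, hz, rfl⟩

theorem off_layer {n : ℕ} (A : Finset ℕ) (hA : 2 ≤ A.card) (r : ℕ) (hr : ∀ j ∈ A, j % 3 = r)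
    (z : ℕ → Fin 2 → ℤ) (hz : ∀ j ∈ A, z j ∈ Tb n j) : (∑ j ∈ A, z j) ∉ (layer 2 n : Set (Fin 2 → ℤ)) := by
  classical
  have hne : A.Nonempty := Finset.card_pos.1 (by omega)
  obtain ⟨a, ha, b, hb, hab⟩ := Finset.one_lt_card.1 (by omega : 1 < A.card)
  set M := A.max' hne with hM
  set m := A.min' hne with hmm
  have hMA : M ∈ A := A.max'_mem hne
  have hmA : m ∈ A := A.min'_mem hne
  have hle : ∀ j ∈ A, j ≤ n := fun j hj => by have := (hz j hj).2; omega
  have hmM : m < M := by
    have h1 := A.min'_le a ha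
    have h2 := A.min'_le b hb
    have h3 := A.le_max' a ha
    have h4 := A.le_max' b hb
    omega
  have hmM3 : m + 3 ≤ M := by
    have h1 := hr M hMA
    have h2 := hr m hmA
    omega
  have hMn := hle M hMA
  intro hmem
  rw [Finset.mem_coe, mem_layer_iff, Fin.sum_univ_two] at hmem
  rw [Finset.sum_apply, Finset.sum_apply] at hmem
  have e1 := size_sum A (fun j => j) (fun _ _ _ _ h => h) M hMA (fun j hj hjM => by
      have h1 := hr M hMA
      have h2 := hr j hj
      have h3 := A.le_max' j hj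
      show j + 3 ≤ M
      omega) (fun j => z j 0) (fun j hj => (hz j hj).1) (by show 3 ≤ M; omega)
  have e2 := size_sum A (fun j => n - j) (fun x hx y hy h => by
      have h1 := hle x hx
      have h2 := hle y hy
      simp only at h
      omega) m hmA (fun j hj hjM => by
      have h1 := hr m hmA
      have h2 := hr j hj
      have h3 := A.min'_le j hj
      have h4 := hle j hj
      show n - j + 3 ≤ n - m
      omega) (fun j => z j 1) (fun j hj => by
        have := (hz j hj).2
        show _ = n - j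
        omega) (by show 3 ≤ n - m; omega)
  omega

theorem prod_spec {n : ℕ} (r : ℕ) (U : ℕ → (Fin 2 → ℝ) → ℂ) (c : ℂ) (S : Finset ℕ)
    (hr : ∀ j ∈ S, j % 3 = r) (hU : ∀ j ∈ S, U j ∈ TS (Tb n j)) :
    (∏ j ∈ S, (1 + c • U j)) - 1 ∈ TS (Sp n S) ∧
    (∏ j ∈ S, (1 + c • U j)) - 1 - c • ∑ j ∈ S, U j ∈ TS {k | k ∉ layer 2 n} := by
  classical
  induction S using Finset.induction_on with
  | empty => simp
  | insert a S ha ih =>
    obtain ⟨ih1, ih2⟩ := ih (fun j hj => hr j (Finset.mem_insert_of_mem hj))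
      (fun j hj => hU j (Finset.mem_insert_of_mem hj))
    set P := ∏ j ∈ S, (1 + c • U j) with hP
    rw [Finset.prod_insert ha, Finset.sum_insert ha, ← hP]
    have hUa := hU a (Finset.mem_insert_self a S)
    have key : c • (U a * (P - 1)) ∈ TS (Tb n a + Sp n S) := by
      exact Submodule.smul_mem _ _ (TS_mul hUa ih1)
    have hsub1 : Tb n a + Sp n S ⊆ Sp n (insert a S) := by
      rintro _ ⟨k, hk, κ, ⟨A, hA, hne, z, hz, rfl⟩, rfl⟩
      have haA : a ∉ A := fun h => ha (hA h)
      refine ⟨insert a A, Finset.insert_subset_insert a hA, Finset.insert_nonempty _ _,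
        Function.update z a k, ?_, ?_⟩
      · intro j hj
        rcases Finset.mem_insert.1 hj with rfl | hj
        · simpa using hk
        · have : j ≠ a := fun h => haA (h ▸ hj)
          rw [Function.update_of_ne this]; exact hz j hj
      · rw [Finset.sum_insert haA, Function.update_self]
        congr 1
        refine Finset.sum_congr rfl fun j hj => ?_
        have : j ≠ a := fun h => haA (h ▸ hj)
        rw [Function.update_of_ne this]
    have hsub2 : Tb n a + Sp n S ⊆ {k | k ∉ layer 2 n} := by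
      rintro _ ⟨k, hk, κ, ⟨A, hA, hne, z, hz, rfl⟩, rfl⟩
      have haA : a ∉ A := fun h => ha (hA h)
      have h1 : (k + ∑ j ∈ A, z j) = ∑ j ∈ insert a A, Function.update z a k j := by
        rw [Finset.sum_insert haA, Function.update_self]
        congr 1
        refine Finset.sum_congr rfl fun j hj => ?_
        have : j ≠ a := fun h => haA (h ▸ hj)
        rw [Function.update_of_ne this]
      show (k + ∑ j ∈ A, z j) ∉ layer 2 n
      rw [h1]
      have h2 := off_layer (n := n) (insert a A) (by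
        rw [Finset.card_insert_of_notMem haA]
        have := hne.card_pos
        omega) r (fun j hj => by
          rcases Finset.mem_insert.1 hj with rfl | hj
          · exact hr _ (Finset.mem_insert_self _ _)
          · exact hr j (Finset.mem_insert_of_mem (hA hj))) (Function.update z a k) (fun j hj => by
          rcases Finset.mem_insert.1 hj with rfl | hj
          · simpa using hk
          · have : j ≠ a := fun h => haA (h ▸ hj)
            rw [Function.update_of_ne this]; exact hz j hj)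
      exact h2
    constructor
    · have e : (1 + c • U a) * P - 1 = (P - 1) + c • U a + c • (U a * (P - 1)) := by
        rw [add_mul, one_mul, smul_mul_assoc, mul_sub, mul_one, smul_sub]; ring
      rw [e]
      refine Submodule.add_mem _ (Submodule.add_mem _ ?_ ?_) ?_
      · exact TS_mono (Sp_mono (Finset.subset_insert a S)) ih1
      · refine Submodule.smul_mem _ _ (TS_mono ?_ hUa)
        intro k hk
        exact ⟨{a}, by simp, Finset.singleton_nonempty a, fun _ => k, fun j hj => by
          rw [Finset.mem_singleton.1 hj]; exact hk, by simp⟩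
      · exact TS_mono hsub1 key
    · have e : (1 + c • U a) * P - 1 - c • (U a + ∑ j ∈ S, U j)
          = (P - 1 - c • ∑ j ∈ S, U j) + c • (U a * (P - 1)) := by
        rw [add_mul, one_mul, smul_mul_assoc, mul_sub, mul_one, smul_sub, smul_add]; ring
      rw [e]
      exact Submodule.add_mem _ ih2 (TS_mono hsub2 key)

end H396
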