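import Pool.Agent.HypVol.Defs
import Pool.Agent.HypVol.L_mem_layer
import Pool.Agent.HypVol.L_fc_poly
import Pool.Agent.HypVol.L_TP_prob

open MeasureTheory Real
open scoped ENNReal BigOperators Pointwise

set_option autoImplicit false

namespace H396

open HypVol

/-- exponential with frequency `k` -/
noncomputable def ek {d : ℕ} (k : Fin d → ℤ) : (Fin d → ℝ) → ℂ := fun x =>
  Complex.exp (Complex.I * ((∑ j, (k j : ℝ) * x j : ℝ) : ℂ))

/-- trigonometric polynomials with spectrum in `S` -/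
noncomputable def TS {d : ℕ} (S : Set (Fin d → ℤ)) : Submodule ℂ ((Fin d → ℝ) → ℂ) :=
  Submodule.span ℂ (ek '' S)

theorem ek_cont {d : ℕ} (k : Fin d → ℤ) : Continuous (ek k) := by
  unfold ek; fun_prop

theorem ek_norm {d : ℕ} (k : Fin d → ℤ) (x : Fin d → ℝ) : ‖ek k x‖ = 1 := by
  unfold ek
  rw [mul_comm]; exact Complex.norm_exp_ofReal_mul_I _

theorem ek_mul {d : ℕ} (k l : Fin d → ℤ) : ek k * ek l = ek (k + l) := by
  funext x
  simp only [ek, Pi.mul_apply, Pi.add_apply]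
  rw [← Complex.exp_add]
  congr 1
  push_cast
  rw [← mul_add, ← Finset.sum_add_distrib]
  congr 1
  refine Finset.sum_congr rfl fun j _ => by ring

theorem ek_conj {d : ℕ} (k : Fin d → ℤ) (x : Fin d → ℝ) : (starRingEnd ℂ) (ek k x) = ek (-k) x := by
  simp only [ek]
  rw [← Complex.exp_conj, map_mul, Complex.conj_I, Complex.conj_ofReal]
  congr 1
  simp only [Pi.neg_apply]
  push_cast
  rw [neg_mul, ← mul_neg, ← Finset.sum_neg_distrib]
  congr 1
  refine Finset.sum_congr rfl fun j _ => by ring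

theorem ek_zero {d : ℕ} : (ek (0 : Fin d → ℤ)) = 1 := by
  funext x; simp [ek]

theorem ek_mem {d : ℕ} {S : Set (Fin d → ℤ)} {k : Fin d → ℤ} (h : k ∈ S) : ek k ∈ TS S :=
  Submodule.subset_span ⟨k, h, rfl⟩

theorem TS_mono {d : ℕ} {S T : Set (Fin d → ℤ)} (h : S ⊆ T) : TS S ≤ TS T :=
  Submodule.span_mono (Set.image_mono h)

theorem TS_mul {d : ℕ} {S T : Set (Fin d → ℤ)} {f g : (Fin d → ℝ) → ℂ} (hf : f ∈ TS S)
    (hg : g ∈ TS T) : f * g ∈ TS (S + T) := by
  have h := Submodule.mul_mem_mul hf hg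
  unfold TS at h ⊢
  rw [Submodule.span_mul_span] at h
  refine Submodule.span_mono ?_ h
  rintro _ ⟨_, ⟨k, hk, rfl⟩, _, ⟨l, hl, rfl⟩, rfl⟩
  exact ⟨k + l, Set.add_mem_add hk hl, (ek_mul k l).symm⟩

theorem TS_cont {d : ℕ} {S : Set (Fin d → ℤ)} {f : (Fin d → ℝ) → ℂ} (hf : f ∈ TS S) :
    Continuous f := by
  unfold TS at hf
  induction hf using Submodule.span_induction with
  | mem x hx => obtain ⟨k, -, rfl⟩ := hx; exact ek_cont k
  | zero => exact continuous_const
  | add x y _ _ hx hy => exact hx.add hy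
  | smul c x _ hx => exact hx.const_smul c

theorem TS_bdd {d : ℕ} {S : Set (Fin d → ℤ)} {f : (Fin d → ℝ) → ℂ} (hf : f ∈ TS S) :
    ∃ C : ℝ, ∀ x, ‖f x‖ ≤ C := by
  unfold TS at hf
  induction hf using Submodule.span_induction with
  | mem x hx => obtain ⟨k, -, rfl⟩ := hx; exact ⟨1, fun x => (ek_norm k x).le⟩
  | zero => exact ⟨0, fun x => by simp⟩
  | add x y _ _ hx hy =>
    obtain ⟨C, hC⟩ := hx; obtain ⟨D, hD⟩ := hy
    exact ⟨C + D, fun z => (norm_add_le _ _).trans (add_le_add (hC z) (hD z))⟩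
  | smul c x _ hx =>
    obtain ⟨C, hC⟩ := hx
    exact ⟨‖c‖ * C, fun z => by
      rw [Pi.smul_apply, norm_smul]; exact mul_le_mul_of_nonneg_left (hC z) (norm_nonneg _)⟩

theorem TS_int {d : ℕ} {S : Set (Fin d → ℤ)} {f : (Fin d → ℝ) → ℂ} (hf : f ∈ TS S) :
    Integrable f (TP d) := by
  haveI := TP_prob d
  obtain ⟨C, hC⟩ := TS_bdd hf
  exact Integrable.of_bound (TS_cont hf).aestronglyMeasurable C (Filter.Eventually.of_forall hC)

theorem fc_int {d : ℕ} {f : (Fin d → ℝ) → ℂ} (hf : Integrable f (TP d)) (k : Fin d → ℤ) :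
    Integrable (fun x => f x * Complex.exp (-(Complex.I * ((∑ j, (k j : ℝ) * x j : ℝ) : ℂ)))) (TP d) := by
  have hc : Continuous (fun x : Fin d → ℝ =>
      Complex.exp (-(Complex.I * ((∑ j, (k j : ℝ) * x j : ℝ) : ℂ)))) := by
    fun_prop
  refine hf.mul_bdd (c := 1) hc.aestronglyMeasurable (Filter.Eventually.of_forall fun x => ?_)
  rw [Complex.norm_exp]
  simp

theorem fc_add' {d : ℕ} {f g : (Fin d → ℝ) → ℂ} (hf : Integrable f (TP d)) (hg : Integrable g (TP d))
    (k : Fin d → ℤ) : fc (f + g) k = fc f k + fc g k := by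
  unfold fc
  rw [← integral_add (fc_int hf k) (fc_int hg k)]
  refine integral_congr_ae (Filter.Eventually.of_forall fun x => ?_)
  simp only [Pi.add_apply, add_mul]

theorem fc_smul' {d : ℕ} (c : ℂ) (f : (Fin d → ℝ) → ℂ) (k : Fin d → ℤ) :
    fc (c • f) k = c * fc f k := by
  unfold fc
  rw [← integral_const_mul]
  refine integral_congr_ae (Filter.Eventually.of_forall fun x => ?_)
  simp only [Pi.smul_apply, smul_eq_mul, mul_assoc]

theorem fc_ek {d : ℕ} (l k : Fin d → ℤ) : fc (ek l) k = if l = k then 1 else 0 :=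
  Sol_fc_poly.hv_orth l k

theorem fc_off {d : ℕ} {S : Set (Fin d → ℤ)} {f : (Fin d → ℝ) → ℂ} (hf : f ∈ TS S) {k : Fin d → ℤ}
    (hk : k ∉ S) : fc f k = 0 := by
  have hf' := hf
  unfold TS at hf
  induction hf using Submodule.span_induction with
  | mem x hx =>
    obtain ⟨l, hl, rfl⟩ := hx
    rw [fc_ek, if_neg]
    rintro rfl
    exact hk hl
  | zero => unfold fc; simp
  | add x y hx1 hy1 hx hy =>
    rw [fc_add' (TS_int hx1) (TS_int hy1), hx hx1, hy hy1, add_zero]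
  | smul c x hx1 hx => rw [fc_smul', hx hx1, mul_zero]

end H396
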