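import Pool.Agent.H396R3.Ent
import Pool.Agent.EntX.L_fc_unique
import Pool.Agent.MWidth.L_W_tail
import Pool.Agent.MWidth.L_cover_W2
import Pool.Agent.MWidth.L_num_sums
import Pool.Agent.MWidth.L_lower_cover1

open MeasureTheory Real Filter
open scoped ENNReal BigOperators Topology

set_option autoImplicit false

namespace H396

open HypVol MWidth

/-- the class `W^{a,b}_1`, `d = 2` -/
def W1 (a b : ℝ) : Set ((Fin 2 → ℝ) → ℂ) :=
  {f | MemLp f 1 (TP 2) ∧ ∀ n : ℕ, eLpNorm (lay 2 n f) 1 (TP 2) ≤ ENNReal.ofReal (lam 2 a b n)}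

/-- size of the layers in `L_p` -/
noncomputable def rr (p a b : ℝ) (n : ℕ) : ℝ := lam 2 a b n * (2 * D2 n) ^ (1 - 1/p)

theorem lam_pos2 (a b : ℝ) (n : ℕ) : 0 < lam 2 a b n := Sol_cover_W2.mw_lam_pos 2 a b n

theorem rr_nonneg (p a b : ℝ) (n : ℕ) : 0 ≤ rr p a b n := by
  unfold rr
  have := lam_pos2 a b n
  have := D2_pos n
  positivity

/-- normalised layers -/
theorem lay_B1 {a b : ℝ} {f : (Fin 2 → ℝ) → ℂ} (hf : f ∈ W1 a b) (n : ℕ) :
    ∃ x ∈ B1 n, lay 2 n f = fun z => (lam 2 a b n : ℂ) * poly x z := by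
  have hl := lam_pos2 a b n
  refine ⟨(lam 2 a b n)⁻¹ • Sol_cover_W2.mw_coef 2 n f, ?_, ?_⟩
  · show eLpNorm (poly ((lam 2 a b n)⁻¹ • Sol_cover_W2.mw_coef 2 n f)) 1 (TP 2) ≤ 1
    have h1 : poly ((lam 2 a b n)⁻¹ • Sol_cover_W2.mw_coef 2 n f) =
        (((lam 2 a b n)⁻¹ : ℝ) : ℂ) • lay 2 n f := by
      funext z
      rw [Sol_cover_W2.mw_poly_smul, Sol_cover_W2.mw_lay]
      rfl
    rw [h1, eLpNorm_const_smul, ← ofReal_norm, Complex.norm_real, Real.norm_of_nonneg (inv_pos.2 hl).le]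
    calc ENNReal.ofReal (lam 2 a b n)⁻¹ * eLpNorm (lay 2 n f) 1 (TP 2)
        ≤ ENNReal.ofReal (lam 2 a b n)⁻¹ * ENNReal.ofReal (lam 2 a b n) := by
          gcongr
          exact hf.2 n
      _ = 1 := by
        rw [← ENNReal.ofReal_mul (inv_pos.2 hl).le, inv_mul_cancel₀ hl.ne', ENNReal.ofReal_one]
  · rw [Sol_cover_W2.mw_lay]
    funext z
    rw [Sol_cover_W2.mw_poly_smul, ← mul_assoc, ← Complex.ofReal_mul, mul_inv_cancel₀ hl.ne',
      Complex.ofReal_one, one_mul]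

theorem lay_p (p : ℝ) (hp1 : 1 < p) (hp2 : p < 2) {a b : ℝ} {f : (Fin 2 → ℝ) → ℂ} (hf : f ∈ W1 a b)
    (n : ℕ) : eLpNorm (lay 2 n f) (ENNReal.ofReal p) (TP 2) ≤ ENNReal.ofReal (rr p a b n) := by
  obtain ⟨x, hx, he⟩ := lay_B1 hf n
  have hl := lam_pos2 a b n
  have h1 : lay 2 n f = ((lam 2 a b n : ℝ) : ℂ) • poly x := by rw [he]; rfl
  rw [h1, eLpNorm_const_smul, ← ofReal_norm, Complex.norm_real, Real.norm_of_nonneg hl.le]
  unfold rr
  rw [ENNReal.ofReal_mul hl.le]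
  gcongr
  exact radp p hp1 hp2 n x hx

theorem lay_cont (n : ℕ) (f : (Fin 2 → ℝ) → ℂ) : Continuous (lay 2 n f) := by
  rw [Sol_cover_W2.mw_lay]
  exact Sol_cover_W2.mw_poly_cont _

theorem lay_mem (p : ℝ) (hp1 : 1 < p) (n : ℕ) (f : (Fin 2 → ℝ) → ℂ) :
    MemLp (lay 2 n f) (ENNReal.ofReal p) (TP 2) := by
  rw [Sol_cover_W2.mw_lay]
  exact Sol_cover_W2.mw_memLp p hp1.le _

/-- bound for Fourier coefficients -/
theorem fc_le (g : (Fin 2 → ℝ) → ℂ) (p : ℝ) (hp1 : 1 < p) (hg : MemLp g (ENNReal.ofReal p) (TP 2))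
    (k : Fin 2 → ℤ) : ‖fc g k‖ ≤ (eLpNorm g (ENNReal.ofReal p) (TP 2)).toReal := by
  haveI := TP_prob 2
  have hP1 : (1 : ℝ≥0∞) ≤ ENNReal.ofReal p := by
    rw [← ENNReal.ofReal_one]; exact ENNReal.ofReal_le_ofReal hp1.le
  have h1 : ‖fc g k‖ ≤ ∫ x, ‖g x‖ ∂(TP 2) := by
    unfold fc
    refine (norm_integral_le_integral_norm _).trans (le_of_eq ?_)
    congr 1
    funext x
    rw [norm_mul, Sol_W_tail.wt_norm_exp', mul_one]
  have h2 : ∫ x, ‖g x‖ ∂(TP 2) = (eLpNorm g 1 (TP 2)).toReal := by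
    rw [eLpNorm_one_eq_lintegral_enorm]
    exact integral_norm_eq_lintegral_enorm hg.1
  rw [h2] at h1
  exact h1.trans (ENNReal.toReal_mono hg.2.ne (eLpNorm_le_eLpNorm_of_exponent_le hP1 hg.1))

theorem fc_sub2 (g h : (Fin 2 → ℝ) → ℂ) (hg : Integrable g (TP 2)) (hh : Integrable h (TP 2))
    (k : Fin 2 → ℤ) : fc (fun x => g x - h x) k = fc g k - fc h k := by
  haveI := TP_prob 2
  unfold fc
  rw [← integral_sub]
  · congr 1
    funext x
    ring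
  · exact hg.mul_bdd (c := 1) (Sol_W_tail.wt_cont_exp' 2 k).aestronglyMeasurable
      (ae_of_all _ (fun x => (Sol_W_tail.wt_norm_exp' _).le))
  · exact hh.mul_bdd (c := 1) (Sol_W_tail.wt_cont_exp' 2 k).aestronglyMeasurable
      (ae_of_all _ (fun x => (Sol_W_tail.wt_norm_exp' _).le))

theorem fc_congr {g h : (Fin 2 → ℝ) → ℂ} (he : g =ᵐ[TP 2] h) (k : Fin 2 → ℤ) : fc g k = fc h k := by
  unfold fc
  refine integral_congr_ae ?_
  filter_upwards [he] with x hx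
  rw [hx]

theorem fc_sum_lay (f : (Fin 2 → ℝ) → ℂ) (k : Fin 2 → ℤ) (N : ℕ)
    (hN : ∑ j, (k j).natAbs.size < N) :
    fc (fun x => ∑ n ∈ Finset.range N, lay 2 n f x) k = fc f k := by
  haveI := TP_prob 2
  have h1 : fc (fun x => ∑ n ∈ Finset.range N, lay 2 n f x) k =
      ∑ n ∈ Finset.range N, fc (lay 2 n f) k := by
    unfold fc
    rw [← integral_finset_sum]
    · congr 1
      funext x
      rw [Finset.sum_mul]
    · intro n _
      have hi : Integrable (lay 2 n f) (TP 2) := by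
        have := lay_mem 2 (by norm_num) n f
        exact this.integrable (by rw [← ENNReal.ofReal_one]; exact ENNReal.ofReal_le_ofReal (by norm_num))
      exact hi.mul_bdd (c := 1) (Sol_W_tail.wt_cont_exp' 2 k).aestronglyMeasurable
        (ae_of_all _ (fun x => (Sol_W_tail.wt_norm_exp' _).le))
  rw [h1]
  simp only [Sol_W_tail.wt_fc_lay, Sol_W_tail.wt_layer_iff]
  rw [Finset.sum_ite_eq' (Finset.range N) (∑ j, (k j).natAbs.size) (fun _ => fc f k),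
    if_pos (Finset.mem_range.2 hN)]

/-- the tail of the series of layers in `L_p` -/
theorem tail (p : ℝ) (hp1 : 1 < p) (hp2 : p < 2) {a b : ℝ} (hs : Summable (rr p a b))
    {f : (Fin 2 → ℝ) → ℂ} (hf : f ∈ W1 a b) (M : ℕ) :
    eLpNorm (fun x => f x - ∑ n ∈ Finset.range M, lay 2 n f x) (ENNReal.ofReal p) (TP 2)
      ≤ ENNReal.ofReal (∑' n : ℕ, rr p a b (n + M)) := by
  haveI := TP_prob 2
  have hP1 : (1 : ℝ≥0∞) ≤ ENNReal.ofReal p := by
    rw [← ENNReal.ofReal_one]; exact ENNReal.ofReal_le_ofReal hp1.le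
  haveI : Fact ((1 : ℝ≥0∞) ≤ ENNReal.ofReal p) := ⟨hP1⟩
  obtain ⟨F, hF⟩ : ∃ F : ℕ → Lp ℂ (ENNReal.ofReal p) (TP 2), F = fun n => (lay_mem p hp1 n f).toLp := ⟨_, rfl⟩
  have hFn : ∀ n, ‖F n‖ ≤ rr p a b n := by
    intro n
    rw [hF, Lp.norm_toLp]
    exact ENNReal.toReal_le_of_le_ofReal (rr_nonneg p a b n) (lay_p p hp1 hp2 hf n)
  have hFs : Summable F := Summable.of_norm_bounded hs hFn
  have hFae : ∀ N : ℕ, (⇑(∑ n ∈ Finset.range N, F n) : (Fin 2 → ℝ) → ℂ) =ᵐ[TP 2]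
      fun x => ∑ n ∈ Finset.range N, lay 2 n f x := by
    intro N
    induction N with
    | zero =>
      simp only [Finset.range_zero, Finset.sum_empty]
      exact Lp.coeFn_zero _ _ _
    | succ N ih =>
      rw [Finset.sum_range_succ]
      filter_upwards [Lp.coeFn_add (∑ n ∈ Finset.range N, F n) (F N), ih,
        (lay_mem p hp1 N f).coeFn_toLp] with x h1 h2 h3
      rw [h1, Pi.add_apply, h2, Finset.sum_range_succ, hF]
      simp only
      rw [h3]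
  obtain ⟨G, hG⟩ : ∃ G : Lp ℂ (ENNReal.ofReal p) (TP 2), G = ∑' n, F n := ⟨_, rfl⟩
  have hGs : HasSum F G := by rw [hG]; exact hFs.hasSum
  have hGi : Integrable (⇑G) (TP 2) := (Lp.memLp G).integrable hP1
  have hfi : Integrable f (TP 2) := hf.1.integrable le_rfl
  -- Fourier coefficients
  have hfc : ∀ k, fc (⇑G) k = fc f k := by
    intro k
    have h1 : Tendsto (fun N => ‖G - ∑ n ∈ Finset.range N, F n‖) atTop (𝓝 0) := by
      have := hGs.tendsto_sum_nat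
      have h2 := (tendsto_const_nhds (x := G)).sub this
      rw [sub_self] at h2
      simpa using h2.norm
    have h2 : ∀ᶠ N in atTop, ‖fc (⇑G) k - fc f k‖ ≤ ‖G - ∑ n ∈ Finset.range N, F n‖ := by
      filter_upwards [eventually_gt_atTop (∑ j, (k j).natAbs.size)] with N hN
      have h3 : fc (⇑(∑ n ∈ Finset.range N, F n)) k = fc f k := by
        rw [fc_congr (hFae N)]
        exact fc_sum_lay f k N hN
      rw [← h3, ← fc_sub2 _ _ hGi ((Lp.memLp _).integrable hP1)]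
      have h4 : (⇑(G - ∑ n ∈ Finset.range N, F n) : (Fin 2 → ℝ) → ℂ) =ᵐ[TP 2]
          fun x => (⇑G : (Fin 2 → ℝ) → ℂ) x - (⇑(∑ n ∈ Finset.range N, F n) : (Fin 2 → ℝ) → ℂ) x :=
        Lp.coeFn_sub _ _
      rw [← fc_congr h4]
      exact fc_le _ p hp1 (Lp.memLp _) k
    have h5 : ‖fc (⇑G) k - fc f k‖ ≤ 0 := ge_of_tendsto h1 h2
    exact sub_eq_zero.1 (norm_le_zero_iff.1 h5)
  have hz : (fun x => f x - (⇑G : (Fin 2 → ℝ) → ℂ) x) =ᵐ[TP 2] 0 := by
    refine HypVol.fc_unique _ (hfi.sub hGi) ?_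
    intro k
    rw [fc_sub2 _ _ hfi hGi, hfc, sub_self]
  have hae : (fun x => f x - ∑ n ∈ Finset.range M, lay 2 n f x) =ᵐ[TP 2]
      (⇑(G - ∑ n ∈ Finset.range M, F n) : (Fin 2 → ℝ) → ℂ) := by
    filter_upwards [hz, hFae M, Lp.coeFn_sub G (∑ n ∈ Finset.range M, F n)] with x h1 h2 h3
    rw [h3, Pi.sub_apply, h2]
    have : f x = (⇑G : (Fin 2 → ℝ) → ℂ) x := sub_eq_zero.1 h1
    rw [this]
  rw [eLpNorm_congr_ae hae]
  have h6 : G - ∑ n ∈ Finset.range M, F n = ∑' n, F (n + M) := by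
    rw [hG, ← hFs.sum_add_tsum_nat_add M]
    abel
  have h7 : ‖∑' n, F (n + M)‖ ≤ ∑' n, rr p a b (n + M) :=
    tsum_of_norm_bounded ((summable_nat_add_iff M).2 hs).hasSum (fun n => hFn _)
  rw [← h6, Lp.norm_def] at h7
  rw [ENNReal.le_ofReal_iff_toReal_le (Lp.memLp _).2.ne (tsum_nonneg fun n => rr_nonneg _ _ _ _)]
  exact h7

end H396
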